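import Pool.Agent.Lib.MP_9dcf40_lc.Reg.Exp

/-!
# MP_9dcf40_lc, project Reg: the balanced splitting
-/

set_option autoImplicit false

namespace Pool.Agent.Lib.MP_9dcf40_lc.Reg

noncomputable section

variable {F : Type} [Field F] {k : ℕ} {J : Type} [Fintype J] [Nonempty J]

lemma card_flp_le {k : ℕ} (l : ℕ) (E A : Finset (W k)) :
    (E.filter fun v => flp l v ∈ A).card ≤ A.card := by
  refine Finset.card_le_card_of_injOn (flp l) ?_ ?_
  · intro v hv
    exact (Finset.mem_filter.mp hv).2
  · intro v _ v' _ h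
    rw [← flp_flp l v, ← flp_flp l v', h]

lemma card_fil_le {k : ℕ} (E A : Finset (W k)) : (E.filter fun v => v ∈ A).card ≤ A.card :=
  Finset.card_le_card fun _ hv => (Finset.mem_filter.mp hv).2

omit [Nonempty J] in
/-- counting: exposed nodes against available children in the two parts -/
lemma count (X : ℕ → ℕ → Submodule F (Fr F k J)) (l s m e : ℕ) :
    (Ex X l s e).card ≤ (Av X l s m).card + (Av X l m e).card := by
  classical
  set E := Ex X l s e
  set A := Av X l s m
  set B := Av X l m e
  have h1 : 2 * E.card ≤ (E.filter fun v => v ∈ A).card + (E.filter fun v => v ∈ B).card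
      + (E.filter fun v => flp l v ∈ A).card + (E.filter fun v => flp l v ∈ B).card := by
    rw [Finset.card_filter, Finset.card_filter, Finset.card_filter, Finset.card_filter,
      ← Finset.sum_add_distrib, ← Finset.sum_add_distrib, ← Finset.sum_add_distrib,
      Finset.card_eq_sum_ones, Finset.mul_sum]
    refine Finset.sum_le_sum fun v hv => ?_
    obtain ⟨h2, h3⟩ := split X l s m e v hv
    have h2' : v ∈ A ∨ flp l v ∈ B := h2
    have h3' : v ∈ B ∨ flp l v ∈ A := h3
    by_cases a1 : v ∈ A <;> by_cases a2 : v ∈ B <;> by_cases a3 : flp l v ∈ A <;>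
      by_cases a4 : flp l v ∈ B <;> simp_all
  have h2 := card_fil_le E A
  have h3 := card_fil_le E B
  have h4 := card_flp_le l E A
  have h5 := card_flp_le l E B
  omega

/-- exposed nodes against available nodes, first part -/
lemma av_ex {X : ℕ → ℕ → Submodule F (Fr F k J)} {ρ : ℕ} (hX : Run X ρ) (l s e : ℕ) :
    Fintype.card J * (Av X (l + 1) s e \ Ex X l s e).card ≤ ρ := by
  classical
  refine key X l s e (X (l + 1) s) ρ (hX.fin l s) (hX.rank l s) _ ?_
  intro u hu i
  exact N_le hX l s e ((Finset.mem_filter.mp hu).2 i)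

lemma card_le_add {k : ℕ} (b ρ : ℕ) (A E : Finset (W k)) (h : b * (A \ E).card ≤ ρ) :
    b * A.card ≤ b * E.card + ρ := by
  classical
  have h1 : A.card ≤ E.card + (A \ E).card := by
    have := Finset.card_le_card_sdiff_add_card (s := A) (t := E)
    omega
  calc b * A.card ≤ b * (E.card + (A \ E).card) := Nat.mul_le_mul_left b h1
    _ = b * E.card + b * (A \ E).card := by ring
    _ ≤ _ := by omega

/-- exposed nodes against available nodes, second part -/
lemma av_ex2 {X : ℕ → ℕ → Submodule F (Fr F k J)} {ρ : ℕ} (hX : Run X ρ) (l m e : ℕ) :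
    Fintype.card J * (Av X (l + 1) m e \ Ex X l (m + 1) e).card ≤ 2 * ρ := by
  classical
  have hf : Module.Finite F ↥(X (l + 1) m ⊔ X (l + 1) (m + 1)) := by
    have := hX.fin l m
    have := hX.fin l (m + 1)
    infer_instance
  refine key X l (m + 1) e (X (l + 1) m ⊔ X (l + 1) (m + 1)) (2 * ρ) hf ?_ _ ?_
  · have := hX.fin l m
    have := hX.fin l (m + 1)
    refine (Submodule.finrank_add_le_finrank_add_finrank _ _).trans ?_
    have h1 := hX.rank l m
    have h2 := hX.rank l (m + 1)
    omega
  · intro u hu i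
    have h := (Finset.mem_filter.mp hu).2 i
    have hle : N X (l + 1) m e ≤ (X (l + 1) m ⊔ X (l + 1) (m + 1)) ⊔ G X l (m + 1) e := by
      refine Submodule.span_le.mpr ?_
      rintro z ⟨t, h1, h2, h3⟩
      rcases Nat.eq_or_lt_of_le h1 with h4 | h4
      · subst h4
        exact (le_sup_left.trans le_sup_left : X (l + 1) m ≤ _) h3
      · have h5 := X_le hX l (m + 1) t h4 h3
        refine (sup_le ?_ ?_ : X (l + 1) (m + 1) ⊔ G X l (m + 1) t ≤ _) h5
        · exact le_sup_right.trans le_sup_left
        · exact (G_mono X l le_rfl h2.le).trans le_sup_right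
    exact hle h

/-- **balanced splitting** -/
lemma balance {X : ℕ → ℕ → Submodule F (Fr F k J)} {ρ : ℕ} (hX : Run X ρ) (l s e : ℕ)
    (hse : s ≤ e) (hpos : 0 < (Ex X (l + 1) s e).card) :
    ∃ m, s ≤ m ∧ m ≤ e ∧
      Fintype.card J * (Ex X (l + 1) s e).card
        ≤ 2 * (Fintype.card J * (Ex X l s m).card) + 4 * ρ ∧
      Fintype.card J * (Ex X (l + 1) s e).card
        ≤ 2 * (Fintype.card J * (Ex X l m e).card) + 4 * ρ := by
  classical
  set M := (Ex X (l + 1) s e).card
  have hex : ∃ m, s ≤ m ∧ m ≤ e ∧ M ≤ 2 * (Av X (l + 1) s m).card := by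
    refine ⟨e, hse, le_rfl, ?_⟩
    have h := count X (l + 1) s e e
    rw [Av_empty, Finset.card_empty] at h
    omega
  set m := Nat.find hex
  obtain ⟨h1, h2, h3⟩ := Nat.find_spec hex
  have hms : s < m := by
    rcases Nat.eq_or_lt_of_le h1 with h | h
    · exfalso
      have h4 : M ≤ 2 * (Av X (l + 1) s m).card := h3
      have h5 : s = m := h
      rw [← h5, Av_empty, Finset.card_empty] at h4
      omega
    · exact h
  have h4 : M ≤ 2 * (Av X (l + 1) (m - 1) e).card := by
    have h5 := Nat.find_min hex (m := m - 1) (by omega)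
    have h6 : ¬ (M ≤ 2 * (Av X (l + 1) s (m - 1)).card) := by
      intro h7
      exact h5 ⟨by omega, by omega, h7⟩
    have h7 := count X (l + 1) s (m - 1) e
    omega
  refine ⟨m, h1, h2, ?_, ?_⟩
  · have h5 := card_le_add _ _ _ _ (av_ex hX l s m)
    calc Fintype.card J * M ≤ Fintype.card J * (2 * (Av X (l + 1) s m).card) :=
          Nat.mul_le_mul_left _ h3
      _ = 2 * (Fintype.card J * (Av X (l + 1) s m).card) := by ring
      _ ≤ _ := by omega
  · have h5 := card_le_add _ _ _ _ (av_ex2 hX l (m - 1) e)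
    have h6 : m - 1 + 1 = m := by omega
    rw [h6] at h5
    calc Fintype.card J * M ≤ Fintype.card J * (2 * (Av X (l + 1) (m - 1) e).card) :=
          Nat.mul_le_mul_left _ h4
      _ = 2 * (Fintype.card J * (Av X (l + 1) (m - 1) e).card) := by ring
      _ ≤ _ := by omega

end

end Pool.Agent.Lib.MP_9dcf40_lc.Reg
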