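import Pool.Agent.Lib.MP_9dcf40_lc.Reg.Lev

/-!
# MP_9dcf40_lc, project Reg: exposure

`X l t`: the part of level `l` of the memory at time `t`.
-/

set_option autoImplicit false

namespace Pool.Agent.Lib.MP_9dcf40_lc.Reg

noncomputable section

variable {F : Type} [Field F] {k : ℕ} {J : Type} [Fintype J]

/-- what can be produced on level `l + 1` in the time interval `[s, e)` -/
def G (X : ℕ → ℕ → Submodule F (Fr F k J)) (l s e : ℕ) : Submodule F (Fr F k J) :=
  Submodule.span F {z | ∃ (t : ℕ) (c : Lab k J) (x y : Fr F k J), s ≤ t ∧ t < e ∧ c.1 = l ∧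
    x ∈ X l t ∧ y ∈ X l t ∧ z = op c x y}

/-- what occurs on level `l` in the time interval `[s, e)` -/
def N (X : ℕ → ℕ → Submodule F (Fr F k J)) (l s e : ℕ) : Submodule F (Fr F k J) :=
  Submodule.span F {z | ∃ t : ℕ, s ≤ t ∧ t < e ∧ z ∈ X l t}

open Classical in
/-- exposed nodes of level `l + 1` -/
def Ex (X : ℕ → ℕ → Submodule F (Fr F k J)) (l s e : ℕ) : Finset (W k) :=
  Finset.univ.filter fun v => ∃ i, Y (l + 1) v i ∈ G X l s e

open Classical in
/-- available nodes of level `l` -/
def Av (X : ℕ → ℕ → Submodule F (Fr F k J)) (l s e : ℕ) : Finset (W k) :=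
  Finset.univ.filter fun v => ∀ i, Y l v i ∈ N X l s e

/-- the axioms of a computation with `ρ` registers -/
structure Run (X : ℕ → ℕ → Submodule F (Fr F k J)) (ρ : ℕ) : Prop where
  fin : ∀ l t, Module.Finite F (X (l + 1) t)
  rank : ∀ l t, Module.finrank F (X (l + 1) t) ≤ ρ
  start : ∀ l, X (l + 1) 0 = ⊥
  step : ∀ l t, X (l + 1) (t + 1) ≤ X (l + 1) t ⊔ G X l t (t + 1)

omit [Fintype J] in
lemma G_Rt (X : ℕ → ℕ → Submodule F (Fr F k J)) (l s e : ℕ) (v : W k) (i : J) {z : Fr F k J}
    (hz : z ∈ G X l s e) : fil (Rt l v i) z ∈ G X l s e := by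
  classical
  unfold G at hz
  induction hz using Submodule.span_induction with
  | mem z h =>
    obtain ⟨t, c, x, y, h1, h2, h3, h4, h5, rfl⟩ := h
    rw [Rt_op]
    split_ifs
    · exact Submodule.subset_span ⟨t, c, x, y, h1, h2, h3, h4, h5, rfl⟩
    · exact Submodule.zero_mem _
  | zero => rw [map_zero]; exact Submodule.zero_mem _
  | add x y _ _ hx hy => rw [map_add]; exact Submodule.add_mem _ hx hy
  | smul a x _ hx => rw [map_smul]; exact Submodule.smul_mem _ a hx

/-- the key lemma: few nodes are available modulo `X'` without being exposed -/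
lemma key (X : ℕ → ℕ → Submodule F (Fr F k J)) (l s e : ℕ) (X' : Submodule F (Fr F k J))
    (ρ' : ℕ) (hf : Module.Finite F X') (hr : Module.finrank F X' ≤ ρ') (T : Finset (W k))
    (hT : ∀ u ∈ T, ∀ i, Y (l + 1) u i ∈ X' ⊔ G X l s e) :
    Fintype.card J * (T \ Ex X l s e).card ≤ ρ' := by
  classical
  let B : Finset (W k) := T \ Ex X l s e
  let K : Submodule F (Fr F k J) := G X l s e
  let Q : Submodule F (Fr F k J ⧸ K) := X'.map K.mkQ
  have hQf : Module.Finite F Q := Module.Finite.map X' K.mkQ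
  have hQr : Module.finrank F Q ≤ ρ' := le_trans (Submodule.finrank_map_le K.mkQ X') hr
  have hmem : ∀ p : J × B, K.mkQ (Y (l + 1) p.2.1 p.1) ∈ Q := by
    intro p
    have hp : (p.2 : W k) ∈ T := (Finset.mem_sdiff.mp p.2.2).1
    obtain ⟨a, ha, g, hg, hag⟩ := Submodule.mem_sup.mp (hT p.2.1 hp p.1)
    refine ⟨a, ha, ?_⟩
    rw [← hag, map_add, (Submodule.Quotient.mk_eq_zero K).mpr hg |> fun h => (by simpa using h :
      K.mkQ g = 0), add_zero]
  have hli : LinearIndependent F (fun p : J × B => (⟨K.mkQ (Y (l + 1) p.2.1 p.1), hmem p⟩ : Q)) := by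
    have h0 : LinearIndependent F (fun p : J × B => K.mkQ (Y (l + 1) p.2.1 p.1)) := by
      rw [Fintype.linearIndependent_iff]
      intro c hc p
      by_contra hne
      have h1 : K.mkQ (∑ q : J × B, c q • Y (l + 1) q.2.1 q.1) = 0 := by
        rw [map_sum, ← hc]
        exact Finset.sum_congr rfl fun q _ => map_smul _ _ _
      have h2 : ∑ q : J × B, c q • Y (l + 1) q.2.1 q.1 ∈ K := by
        rw [← Submodule.ker_mkQ K]
        exact LinearMap.mem_ker.mpr h1
      have h3 := G_Rt X l s e p.2.1 p.1 h2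
      rw [map_sum, Finset.sum_eq_single p] at h3
      · rw [map_smul, Rt_Y, if_pos rfl] at h3
        have h4 : Y (l + 1) p.2.1 p.1 ∈ G X l s e := by
          have := Submodule.smul_mem _ (c p)⁻¹ h3
          rwa [smul_smul, inv_mul_cancel₀ hne, one_smul] at this
        exact (Finset.mem_sdiff.mp p.2.2).2 (Finset.mem_filter.mpr
          ⟨Finset.mem_univ _, p.1, h4⟩)
      · intro q _ hq
        rw [map_smul, Rt_Y, if_neg, smul_zero]
        intro h
        apply hq
        obtain ⟨h5, h6⟩ := Prod.mk.inj h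
        exact Prod.ext h6 (Subtype.ext h5)
      · intro h
        exact absurd (Finset.mem_univ _) h
    exact LinearIndependent.of_comp Q.subtype h0
  have hc := hli.fintype_card_le_finrank
  rw [Fintype.card_prod, Fintype.card_coe] at hc
  exact hc.trans hQr

omit [Fintype J] in
lemma N_empty (X : ℕ → ℕ → Submodule F (Fr F k J)) (l s : ℕ) : N X l s s = ⊥ := by
  unfold N
  rw [Submodule.span_eq_bot]
  rintro z ⟨t, h1, h2, _⟩
  omega

omit [Fintype J] in
lemma G_empty (X : ℕ → ℕ → Submodule F (Fr F k J)) (l s : ℕ) : G X l s s = ⊥ := by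
  unfold G
  rw [Submodule.span_eq_bot]
  rintro z ⟨t, c, x, y, h1, h2, _⟩
  omega

omit [Fintype J] in
lemma G_mono (X : ℕ → ℕ → Submodule F (Fr F k J)) (l : ℕ) {s e s' e' : ℕ} (hs : s' ≤ s)
    (he : e ≤ e') : G X l s e ≤ G X l s' e' := by
  refine Submodule.span_mono ?_
  rintro z ⟨t, c, x, y, h1, h2, h3⟩
  exact ⟨t, c, x, y, hs.trans h1, lt_of_lt_of_le h2 he, h3⟩

/-- the memory at time `t` in terms of the memory at time `s` -/
lemma X_le {X : ℕ → ℕ → Submodule F (Fr F k J)} {ρ : ℕ} (hX : Run X ρ) (l s t : ℕ) (h : s ≤ t) :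
    X (l + 1) t ≤ X (l + 1) s ⊔ G X l s t := by
  induction t, h using Nat.le_induction with
  | base => exact le_sup_left
  | succ t hst ih =>
    refine (hX.step l t).trans (sup_le (ih.trans ?_) ?_)
    · exact sup_le le_sup_left ((G_mono X l le_rfl (Nat.le_succ t)).trans le_sup_right)
    · exact (G_mono X l hst le_rfl).trans le_sup_right

lemma N_le {X : ℕ → ℕ → Submodule F (Fr F k J)} {ρ : ℕ} (hX : Run X ρ) (l s e : ℕ) :
    N X (l + 1) s e ≤ X (l + 1) s ⊔ G X l s e := by
  refine Submodule.span_le.mpr ?_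
  rintro z ⟨t, h1, h2, h3⟩
  exact (sup_le_sup_left (G_mono X l le_rfl h2.le) _) (X_le hX l s t h1 h3)

/-- the splitting lemma for one pair of coordinates -/
lemma split1 (X : ℕ → ℕ → Submodule F (Fr F k J)) (l s m e : ℕ)
    (v : W k) (hv : v ∈ Ex X l s e) (j j' : J) (N₁ N₂ : Submodule F (Fr F k J))
    (hN : (N₁ = N X l s m ∧ N₂ = N X l m e) ∨ (N₁ = N X l m e ∧ N₂ = N X l s m)) :
    Y l v j ∈ N₁ ∨ Y l (flp l v) j' ∈ N₂ := by
  classical
  by_contra hcon
  push Not at hcon
  obtain ⟨h1, h2⟩ := hcon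
  obtain ⟨i, hi⟩ := (Finset.mem_filter.mp hv).2
  obtain ⟨φ, hφ1, hφ2⟩ := Submodule.exists_le_ker_of_notMem h1
  have key : ∀ z ∈ G X l s e, Ph (l, v, i, j, j') φ z ∈ N₂ := by
    intro z hz
    unfold G at hz
    induction hz using Submodule.span_induction with
    | mem z h =>
      obtain ⟨t, c, x, y, h3, h4, h5, h6, h7, rfl⟩ := h
      rw [Ph_op]
      split_ifs
      · by_cases hx : x ∈ N₁
        · have : φ x = 0 := hφ2 hx
          rw [this, zero_smul]
          exact Submodule.zero_mem _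
        · refine Submodule.smul_mem _ _ ?_
          rcases hN with ⟨e1, e2⟩ | ⟨e1, e2⟩
          · have htm : m ≤ t := by
              by_contra hlt
              apply hx
              rw [e1]
              exact Submodule.subset_span ⟨t, h3, by omega, h6⟩
            rw [e2]
            exact Submodule.subset_span ⟨t, htm, h4, h7⟩
          · have htm : t < m := by
              by_contra hlt
              apply hx
              rw [e1]
              exact Submodule.subset_span ⟨t, by omega, h4, h6⟩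
            rw [e2]
            exact Submodule.subset_span ⟨t, h3, htm, h7⟩
      · exact Submodule.zero_mem _
    | zero => rw [map_zero]; exact Submodule.zero_mem _
    | add x y _ _ hx hy => rw [map_add]; exact Submodule.add_mem _ hx hy
    | smul a x _ hx => rw [map_smul]; exact Submodule.smul_mem _ a hx
  have h3 := key _ hi
  rw [Ph_Y] at h3
  apply h2
  have := Submodule.smul_mem _ (φ (Y l v j))⁻¹ h3
  rwa [smul_smul, inv_mul_cancel₀ hφ1, one_smul] at this

/-- the splitting lemma -/
lemma split (X : ℕ → ℕ → Submodule F (Fr F k J)) (l s m e : ℕ)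
    (v : W k) (hv : v ∈ Ex X l s e) :
    (v ∈ Av X l s m ∨ flp l v ∈ Av X l m e) ∧ (v ∈ Av X l m e ∨ flp l v ∈ Av X l s m) := by
  classical
  constructor
  · by_contra hcon
    push Not at hcon
    obtain ⟨h1, h2⟩ := hcon
    simp only [Av, Finset.mem_filter, Finset.mem_univ, true_and, not_forall] at h1 h2
    obtain ⟨j, hj⟩ := h1
    obtain ⟨j', hj'⟩ := h2
    rcases split1 X l s m e v hv j j' _ _ (Or.inl ⟨rfl, rfl⟩) with h | h
    · exact hj h
    · exact hj' h
  · by_contra hcon
    push Not at hcon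
    obtain ⟨h1, h2⟩ := hcon
    simp only [Av, Finset.mem_filter, Finset.mem_univ, true_and, not_forall] at h1 h2
    obtain ⟨j, hj⟩ := h1
    obtain ⟨j', hj'⟩ := h2
    rcases split1 X l s m e v hv j j' _ _ (Or.inr ⟨rfl, rfl⟩) with h | h
    · exact hj h
    · exact hj' h

lemma Av_empty [Nonempty J] (X : ℕ → ℕ → Submodule F (Fr F k J)) (l s : ℕ) :
    Av X l s s = ∅ := by
  classical
  refine Finset.eq_empty_of_forall_notMem fun v hv => ?_
  obtain ⟨i⟩ := (inferInstance : Nonempty J)
  have h := (Finset.mem_filter.mp hv).2 i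
  rw [N_empty, Submodule.mem_bot] at h
  exact Y_ne l v i h

/-- the children of an exposed node are available -/
lemma child [Nonempty J] (X : ℕ → ℕ → Submodule F (Fr F k J)) (l s e : ℕ) (v : W k)
    (hv : v ∈ Ex X l s e) : v ∈ Av X l s e ∧ flp l v ∈ Av X l s e := by
  have h := split X l s e e v hv
  rw [Av_empty] at h
  simp only [Finset.notMem_empty, or_false, false_or] at h
  exact h

end

end Pool.Agent.Lib.MP_9dcf40_lc.Reg
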