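import Pool.Agent.Lib.MP_9dcf40_lc.Reg.Bal

/-!
# MP_9dcf40_lc, project Reg: paths in the FFT graph, amplification
-/

set_option autoImplicit false

namespace Pool.Agent.Lib.MP_9dcf40_lc.Reg

noncomputable section

open Classical in
/-- the values of `u` on `C`, of `v` outside -/
def cut {k : ℕ} (C : Fin k → Prop) (v u : W k) : W k := fun c => if C c then u c else v c

/-- coordinates changed between the stages `k` and `j` -/
def Cj (k a j : ℕ) (c : Fin k) : Prop := ∃ j', j ≤ j' ∧ j' < k ∧ (c : ℕ) = (a + j' + 1) % k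

lemma cut_top {k : ℕ} (a : ℕ) (v u : W k) : cut (Cj k a k) v u = v := by
  funext c
  unfold cut
  rw [if_neg]
  rintro ⟨j', h1, h2, _⟩
  omega

lemma cut_bot {k : ℕ} (a : ℕ) (v u : W k) : cut (Cj k a 0) v u = u := by
  funext c
  unfold cut
  rw [if_pos]
  have hk : 0 < k := lt_of_le_of_lt (Nat.zero_le _) c.2
  refine ⟨(c + (k - (a + 1) % k)) % k, Nat.zero_le _, Nat.mod_lt _ hk, ?_⟩
  have h1 : (a + 1) % k < k := Nat.mod_lt _ hk
  have h2 : (a + (c + (k - (a + 1) % k)) % k + 1) % k
      = ((a + 1) % k + (c + (k - (a + 1) % k))) % k := by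
    have e1 : a + (c + (k - (a + 1) % k)) % k + 1 = (a + 1) + (c + (k - (a + 1) % k)) % k := by ring
    rw [e1, Nat.add_mod_mod, Nat.mod_add_mod]
  rw [h2]
  have h3 : (a + 1) % k + ((c : ℕ) + (k - (a + 1) % k)) = c + k := by omega
  rw [h3, Nat.add_mod_right, Nat.mod_eq_of_lt c.2]

lemma cut_step {k : ℕ} (a j : ℕ) (hj : j < k) (v u : W k) :
    cut (Cj k a j) v u = cut (Cj k a (j + 1)) v u ∨
      cut (Cj k a j) v u = flp (a + j + 1) (cut (Cj k a (j + 1)) v u) := by
  classical
  have hk : 0 < k := by omega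
  let c₀ : Fin k := ⟨(a + j + 1) % k, Nat.mod_lt _ hk⟩
  have hC : ∀ c : Fin k, Cj k a j c ↔ (Cj k a (j + 1) c ∨ c = c₀) := by
    intro c
    constructor
    · rintro ⟨j', h1, h2, h3⟩
      rcases Nat.eq_or_lt_of_le h1 with h | h
      · right
        subst h
        exact Fin.ext h3
      · exact Or.inl ⟨j', h, h2, h3⟩
    · rintro (⟨j', h1, h2, h3⟩ | h)
      · exact ⟨j', by omega, h2, h3⟩
      · exact ⟨j, le_rfl, hj, by rw [h]⟩
  by_cases h0 : cut (Cj k a (j + 1)) v u c₀ = u c₀
  · left
    funext c
    by_cases hc : c = c₀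
    · rw [hc, h0]
      unfold cut
      rw [if_pos ((hC c₀).mpr (Or.inr rfl))]
    · unfold cut
      by_cases h1 : Cj k a (j + 1) c
      · rw [if_pos h1, if_pos ((hC c).mpr (Or.inl h1))]
      · rw [if_neg h1, if_neg]
        intro h2
        rcases (hC c).mp h2 with h3 | h3
        · exact h1 h3
        · exact hc h3
  · right
    funext c
    by_cases hc : c = c₀
    · rw [hc]
      have e1 : cut (Cj k a j) v u c₀ = u c₀ := by
        unfold cut
        rw [if_pos ((hC c₀).mpr (Or.inr rfl))]
      have e2 : flp (a + j + 1) (cut (Cj k a (j + 1)) v u) c₀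
          = !(cut (Cj k a (j + 1)) v u c₀) := by
        unfold flp
        rw [if_pos rfl]
      rw [e1, e2]
      revert h0
      cases cut (Cj k a (j + 1)) v u c₀ <;> cases u c₀ <;> simp
    · have e2 : flp (a + j + 1) (cut (Cj k a (j + 1)) v u) c
          = cut (Cj k a (j + 1)) v u c := by
        unfold flp
        rw [if_neg]
        intro h
        exact hc (Fin.ext h)
      rw [e2]
      unfold cut
      by_cases h1 : Cj k a (j + 1) c
      · rw [if_pos h1, if_pos ((hC c).mpr (Or.inl h1))]
      · rw [if_neg h1, if_neg]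
        intro h2
        rcases (hC c).mp h2 with h3 | h3
        · exact h1 h3
        · exact hc h3

open Classical in
/-- few paths pass through a given set of nodes -/
lemma through {k : ℕ} (C : Fin k → Prop) (E : Finset (W k)) :
    ((Finset.univ : Finset (W k × W k)).filter fun p => cut C p.1 p.2 ∈ E).card
      ≤ E.card * 2 ^ k := by
  have hW : Fintype.card (W k) = 2 ^ k := by simp
  have h : (E ×ˢ (Finset.univ : Finset (W k))).card = E.card * 2 ^ k := by
    rw [Finset.card_product, Finset.card_univ, hW]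
  rw [← h]
  refine Finset.card_le_card_of_injOn (fun p => (cut C p.1 p.2, cut C p.2 p.1)) ?_ ?_
  · intro p hp
    have := (Finset.mem_filter.mp hp).2
    exact Finset.mem_coe.mpr (Finset.mem_product.mpr ⟨this, Finset.mem_univ _⟩)
  · rintro ⟨v, u⟩ _ ⟨v', u'⟩ _ h
    obtain ⟨h1, h2⟩ := Prod.mk.inj h
    refine Prod.ext ?_ ?_
    · funext c
      have e1 := congrFun h1 c
      have e2 := congrFun h2 c
      simp only [cut] at e1 e2
      by_cases hc : C c
      · rw [if_pos hc, if_pos hc] at e2
        exact e2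
      · rw [if_neg hc, if_neg hc] at e1
        exact e1
    · funext c
      have e1 := congrFun h1 c
      have e2 := congrFun h2 c
      simp only [cut] at e1 e2
      by_cases hc : C c
      · rw [if_pos hc, if_pos hc] at e1
        exact e1
      · rw [if_neg hc, if_neg hc] at e2
        exact e2

open Classical in
/-- the combinatorial lemma on the FFT graph -/
lemma fftComb {k : ℕ} (a b ρ : ℕ) (D E : ℕ → Finset (W k)) (hE : ∀ j, b * (E j).card ≤ ρ)
    (hD : ∀ j, j < k → ∀ x ∈ D (j + 1), (x ∈ D j ∨ x ∈ E j) ∧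
      (flp (a + j + 1) x ∈ D j ∨ flp (a + j + 1) x ∈ E j)) :
    b * ((D k).card * (Finset.univ \ D 0).card) ≤ k * ρ * 2 ^ k := by
  have hpath : ∀ v ∈ D k, ∀ u, u ∉ D 0 → ∃ j < k, cut (Cj k a j) v u ∈ E j := by
    intro v hv u hu
    by_contra hcon
    push Not at hcon
    have hall : ∀ i, i ≤ k → cut (Cj k a (k - i)) v u ∈ D (k - i) := by
      intro i
      induction i with
      | zero =>
        intro _
        rw [Nat.sub_zero, cut_top]
        exact hv
      | succ i ih =>
        intro hi
        have h1 := ih (by omega)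
        have h2 : k - i = (k - (i + 1)) + 1 := by omega
        rw [h2] at h1
        obtain ⟨h3, h4⟩ := hD (k - (i + 1)) (by omega) _ h1
        have h5 := hcon (k - (i + 1)) (by omega)
        rcases cut_step a (k - (i + 1)) (by omega) v u with h6 | h6
        · rw [← h6] at h3
          exact h3.resolve_right h5
        · rw [← h6] at h4
          exact h4.resolve_right h5
    have h1 := hall k le_rfl
    rw [Nat.sub_self, cut_bot] at h1
    exact hu h1
  have hsub : (D k) ×ˢ (Finset.univ \ D 0) ⊆ (Finset.range k).biUnion fun j =>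
      (Finset.univ : Finset (W k × W k)).filter fun p => cut (Cj k a j) p.1 p.2 ∈ E j := by
    intro p hp
    obtain ⟨h1, h2⟩ := Finset.mem_product.mp hp
    obtain ⟨j, hj, hj'⟩ := hpath p.1 h1 p.2 (Finset.mem_sdiff.mp h2).2
    exact Finset.mem_biUnion.mpr ⟨j, Finset.mem_range.mpr hj, Finset.mem_filter.mpr
      ⟨Finset.mem_univ _, hj'⟩⟩
  have hcard := (Finset.card_le_card hsub).trans Finset.card_biUnion_le
  rw [Finset.card_product] at hcard
  calc b * ((D k).card * (Finset.univ \ D 0).card)
      ≤ b * ∑ j ∈ Finset.range k, ((Finset.univ : Finset (W k × W k)).filter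
          fun p => cut (Cj k a j) p.1 p.2 ∈ E j).card := Nat.mul_le_mul_left b hcard
    _ ≤ b * ∑ j ∈ Finset.range k, (E j).card * 2 ^ k :=
        Nat.mul_le_mul_left b (Finset.sum_le_sum fun j _ => through _ _)
    _ = ∑ j ∈ Finset.range k, b * (E j).card * 2 ^ k := by
        rw [Finset.mul_sum]
        exact Finset.sum_congr rfl fun j _ => by ring
    _ ≤ ∑ _j ∈ Finset.range k, ρ * 2 ^ k :=
        Finset.sum_le_sum fun j _ => Nat.mul_le_mul_right _ (hE j)
    _ = k * ρ * 2 ^ k := by
        rw [Finset.sum_const, Finset.card_range, smul_eq_mul]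
        ring

end

end Pool.Agent.Lib.MP_9dcf40_lc.Reg
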