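import Pool.Agent.Lib.MP_9dcf40_lc.Reg.Model

/-!
# MP_9dcf40_lc, project Reg: the upper bounds
-/

set_option autoImplicit false

namespace Pool.Agent.Lib.MP_9dcf40_lc.Reg

noncomputable section

section
variable {F S V J A R : Type} [Field F] [AddCommGroup A] [Module F A] [Fintype S] [Fintype J]
  [Fintype R]

lemma run_append (I : Interp F S V J A) (P Q : List (Round F S V J R)) (x : R → A) :
    run I (P ++ Q) x = run I Q (run I P x) := by
  unfold run
  rw [List.foldl_append]

lemma run_single (I : Interp F S V J A) (ρ : Round F S V J R) (x : R → A) :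
    run I [ρ] x = ρ.step I x := rfl

lemma read_eval [DecidableEq R] (I : Interp F S V J A) (p : R) (x : R → A) :
    (Form.read p : Form F S J R).eval I x = x p := by
  unfold Form.eval Form.read
  simp

end

section
variable {F S V J A : Type} [Field F] [AddCommGroup A] [Module F A] [Fintype S] [Fintype J]
  [DecidableEq S] [DecidableEq J]

/-- add the block `y` to the block register `i` -/
def ad (i : Fin 3) (y : J → A) (x : Fin 3 × J → A) : Fin 3 × J → A :=
  fun p => x p + if p.1 = i then y p.2 else 0

lemma addSrc_step (I : Interp F S V J A) (i : Fin 3) (s : S) (c : F) (x : Fin 3 × J → A) :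
    (Round.addSrc i s c : Round F S V J (Fin 3 × J)).step I x = ad i (c • I.src s) x := by
  funext p
  unfold Round.step Round.addSrc Form.eval ad
  simp only [List.map_nil, List.sum_nil, add_zero, ite_smul, one_smul, zero_smul,
    Finset.sum_ite_eq', Finset.mem_univ, if_true]
  congr 1
  by_cases h : p.1 = i
  · rw [if_pos h, Finset.sum_eq_single s, Finset.sum_eq_single p.2]
    · rw [if_pos ⟨h, rfl, rfl⟩]
      rfl
    · intro j _ hj
      rw [if_neg]
      exact fun h' => hj h'.2.2
    · intro h'
      exact absurd (Finset.mem_univ _) h'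
    · intro s' _ hs
      refine Finset.sum_eq_zero fun j _ => ?_
      rw [if_neg]
      exact fun h' => hs h'.2.1
    · intro h'
      exact absurd (Finset.mem_univ _) h'
  · rw [if_neg h]
    refine Finset.sum_eq_zero fun s' _ => Finset.sum_eq_zero fun j _ => ?_
    rw [if_neg]
    exact fun h' => h h'.1

lemma map_add_left (I : Interp F S V J A) (v : V) (x x' y : J → A) :
    I.map v (x + x') y = I.map v x y + I.map v x' y := by
  funext i
  simp only [Interp.map, Pi.add_apply, map_add, LinearMap.add_apply, Finset.sum_add_distrib]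

lemma map_add_right (I : Interp F S V J A) (v : V) (x y y' : J → A) :
    I.map v x (y + y') = I.map v x y + I.map v x y' := by
  funext i
  simp only [Interp.map, Pi.add_apply, map_add, Finset.sum_add_distrib]

lemma addCall_step (I : Interp F S V J A) (i j l : Fin 3) (v : V) (c : F)
    (x : Fin 3 × J → A) :
    (Round.addCall i j l v c : Round F S V J (Fin 3 × J)).step I x
      = ad i (c • I.map v (fun m => x (j, m)) (fun m => x (l, m))) x := by
  funext p
  unfold Round.step Round.addCall ad
  simp only [read_eval, List.map_map]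
  congr 1
  rw [Finset.sum_map_toList]
  simp only [Function.comp_apply, read_eval]
  rw [Fintype.sum_prod_type]
  by_cases h : p.1 = i
  · rw [if_pos h, Finset.sum_eq_single p.2]
    · have hp : p = (i, p.2) := Prod.ext h rfl
      have h2 : ∀ y : J × J, (if p = (i, p.2) then c else 0) •
          I.gate v p.2 y.1 y.2 (x (j, y.1)) (x (l, y.2))
          = c • I.gate v p.2 y.1 y.2 (x (j, y.1)) (x (l, y.2)) := by
        intro y
        rw [if_pos hp]
      rw [Finset.sum_congr rfl fun y _ => h2 y, Fintype.sum_prod_type]
      simp only [Pi.smul_apply, Interp.map, Finset.smul_sum]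
    · intro a _ ha
      refine Finset.sum_eq_zero fun y _ => ?_
      rw [if_neg, zero_smul]
      intro h'
      exact ha (by rw [h'])
    · intro h'
      exact absurd (Finset.mem_univ _) h'
  · rw [if_neg h]
    refine Finset.sum_eq_zero fun a _ => Finset.sum_eq_zero fun y _ => ?_
    rw [if_neg, zero_smul]
    intro h'
    exact h (by rw [h'])

lemma others (i : Fin 3) : ∃ j l : Fin 3, i ≠ j ∧ i ≠ l ∧ j ≠ l := by
  fin_cases i
  · exact ⟨1, 2, by decide, by decide, by decide⟩
  · exact ⟨0, 2, by decide, by decide, by decide⟩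
  · exact ⟨0, 1, by decide, by decide, by decide⟩

/-- the Cook-Mertz recursion -/
lemma cm (C : Circuit S V) (h : ℕ) (nd : S ⊕ V) (hd : DepthLe C h nd) (i : Fin 3) (c : F) :
    ∃ P : List (Round F S V J (Fin 3 × J)), 3 * P.length + 4 ≤ 7 * 4 ^ h ∧ (∀ ρ ∈ P, ρ.Basic) ∧
      ∀ (A : Type) [AddCommGroup A] [Module F A] (I : Interp F S V J A) (val : S ⊕ V → J → A),
        IsValuation C I val → ∀ x, run I P x = ad i (c • val nd) x := by
  induction hd generalizing i c with
  | src h s =>
    refine ⟨[Round.addSrc i s c], ?_, ?_, ?_⟩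
    · have : 1 ≤ 4 ^ h := Nat.one_le_pow _ _ (by norm_num)
      simp only [List.length_singleton]
      omega
    · intro ρ hρ
      rw [List.mem_singleton] at hρ
      exact Or.inl ⟨i, s, c, hρ⟩
    · intro A _ _ I val hval x
      rw [run_single, addSrc_step, hval.1]
  | gate h v _ _ ih1 ih2 =>
    obtain ⟨j, l, hij, hil, hjl⟩ := others i
    obtain ⟨P1, n1, b1, r1⟩ := ih1 j 1
    obtain ⟨P2, n2, b2, r2⟩ := ih2 l 1
    obtain ⟨P3, n3, b3, r3⟩ := ih1 j (-1)
    obtain ⟨P4, n4, b4, r4⟩ := ih2 l (-1)
    refine ⟨P1 ++ ([Round.addCall i j l v (-c)] ++ (P2 ++ ([Round.addCall i j l v c] ++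
      (P3 ++ ([Round.addCall i j l v (-c)] ++ (P4 ++ [Round.addCall i j l v c])))))), ?_, ?_, ?_⟩
    · simp only [List.length_append, List.length_singleton]
      have : 7 * 4 ^ (h + 1) = 4 * (7 * 4 ^ h) := by ring
      omega
    · intro ρ hρ
      simp only [List.mem_append, List.mem_singleton] at hρ
      rcases hρ with h1 | h1 | h1 | h1 | h1 | h1 | h1 | h1
      · exact b1 ρ h1
      · exact Or.inr ⟨i, j, l, v, -c, hij, hil, hjl, h1⟩
      · exact b2 ρ h1
      · exact Or.inr ⟨i, j, l, v, c, hij, hil, hjl, h1⟩
      · exact b3 ρ h1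
      · exact Or.inr ⟨i, j, l, v, -c, hij, hil, hjl, h1⟩
      · exact b4 ρ h1
      · exact Or.inr ⟨i, j, l, v, c, hij, hil, hjl, h1⟩
    · intro A _ _ I val hval x
      simp only [run_append, run_single, addCall_step, r1 A I val hval, r2 A I val hval,
        r3 A I val hval, r4 A I val hval]
      set a := val (C.fst v)
      set b := val (C.snd v)
      have hv : val (Sum.inr v) = I.map v a b := hval.2 v
      rw [hv]
      have e1 : (fun m => ad j ((1 : F) • a) x (j, m)) = (fun m => x (j, m)) + a := by
        funext m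
        simp [ad]
      have e2 : (fun m => ad j ((1 : F) • a) x (l, m)) = fun m => x (l, m) := by
        funext m
        simp [ad, Ne.symm hjl]
      rw [e1, e2]
      set x2 := ad i (-c • I.map v ((fun m => x (j, m)) + a) fun m => x (l, m))
        (ad j ((1 : F) • a) x) with hx2
      have e3 : (fun m => ad l ((1 : F) • b) x2 (j, m)) = (fun m => x (j, m)) + a := by
        funext m
        simp [hx2, ad, hjl, Ne.symm hij]
      have e4 : (fun m => ad l ((1 : F) • b) x2 (l, m)) = (fun m => x (l, m)) + b := by
        funext m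
        simp [hx2, ad, Ne.symm hjl, Ne.symm hil]
      rw [e3, e4]
      set x4 := ad i (c • I.map v ((fun m => x (j, m)) + a) ((fun m => x (l, m)) + b))
        (ad l ((1 : F) • b) x2) with hx4
      have e5 : (fun m => ad j ((-1 : F) • a) x4 (j, m)) = fun m => x (j, m) := by
        funext m
        simp [hx4, hx2, ad, hjl, Ne.symm hij]
      have e6 : (fun m => ad j ((-1 : F) • a) x4 (l, m)) = (fun m => x (l, m)) + b := by
        funext m
        simp [hx4, hx2, ad, Ne.symm hjl, Ne.symm hil]
      rw [e5, e6]
      set x6 := ad i (-c • I.map v (fun m => x (j, m)) ((fun m => x (l, m)) + b))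
        (ad j ((-1 : F) • a) x4) with hx6
      have e7 : (fun m => ad l ((-1 : F) • b) x6 (j, m)) = fun m => x (j, m) := by
        funext m
        simp [hx6, hx4, hx2, ad, hjl, Ne.symm hij]
      have e8 : (fun m => ad l ((-1 : F) • b) x6 (l, m)) = fun m => x (l, m) := by
        funext m
        simp [hx6, hx4, hx2, ad, Ne.symm hjl, Ne.symm hil]
      rw [e7, e8]
      funext p
      obtain ⟨p, m⟩ := p
      by_cases hp : p = i
      · subst hp
        simp only [hx6, hx4, hx2, ad, if_neg hij, if_neg hil, if_true, map_add_left,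
          map_add_right, Pi.add_apply, Pi.smul_apply, Pi.neg_apply, smul_add, neg_smul,
          one_smul, add_zero]
        abel
      · by_cases hp2 : p = j
        · subst hp2
          simp [hx6, hx4, hx2, ad, hp, hjl]
        · by_cases hp3 : p = l
          · subst hp3
            simp [hx6, hx4, hx2, ad, hp, hp2]
          · simp [hx6, hx4, hx2, ad, hp, hp2, hp3]

end

/-! ## the level by level evaluation of the stack -/

section
variable {F J : Type} [Field F] [Fintype J] [DecidableEq J] {k H : ℕ}

/-- the form which reads the coordinate `m` of the node `v` of the level below level `l`: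
from the sources if `l = 0`, from the registers otherwise -/
def rdf (l : ℕ) (v : W k) (m : J) : Form F (W k) J (W k × J) where
  reg := fun r => if l ≠ 0 ∧ r = (v, m) then 1 else 0
  src := fun s j => if l = 0 ∧ s = v ∧ j = m then 1 else 0

/-- the round which replaces level `l` by level `l + 1` -/
def lvl (l : Fin H) : Round F (W k) (Fin H × W k) J (W k × J) where
  lin := fun _ => { reg := fun _ => 0, src := fun _ _ => 0 }
  calls := (Finset.univ : Finset ((W k × J) × (J × J))).toList.map fun p =>
    { gate := (l, p.1.1)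
      out := p.1.2
      in₁ := p.2.1
      in₂ := p.2.2
      arg₁ := rdf (l : ℕ) p.1.1 p.2.1
      arg₂ := rdf (l : ℕ) (flp (l : ℕ) p.1.1) p.2.2
      tgt := fun r => if r = p.1 then 1 else 0 }

/-- the rounds of the levels `< n` -/
def prog (F J : Type) [Field F] [Fintype J] [DecidableEq J] (k H : ℕ) : (n : ℕ) → n ≤ H →
    List (Round F (W k) (Fin H × W k) J (W k × J))
  | 0, _ => []
  | n + 1, h => prog F J k H n (Nat.le_of_succ_le h) ++ [lvl ⟨n, h⟩]

lemma prog_len (n : ℕ) (h : n ≤ H) : (prog F J k H n h).length = n := by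
  induction n with
  | zero => rfl
  | succ n ih => simp [prog, ih]

variable {A : Type} [AddCommGroup A] [Module F A]

lemma rdf_eval (I : Interp F (W k) (Fin H × W k) J A) (l : ℕ) (v : W k) (m : J)
    (x : W k × J → A) :
    (rdf l v m : Form F (W k) J (W k × J)).eval I x = if l = 0 then I.src v m else x (v, m) := by
  unfold Form.eval rdf
  by_cases hl : l = 0
  · subst hl
    simp only [ne_eq, not_true_eq_false, false_and, if_false, zero_smul, Finset.sum_const_zero,
      true_and, if_true, zero_add]
    rw [Finset.sum_eq_single v, Finset.sum_eq_single m]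
    · simp
    · intro j _ hj
      simp [hj]
    · intro h'
      exact absurd (Finset.mem_univ _) h'
    · intro s _ hs
      refine Finset.sum_eq_zero fun j _ => ?_
      simp [hs]
    · intro h'
      exact absurd (Finset.mem_univ _) h'
  · simp [hl]

lemma lvl_step (I : Interp F (W k) (Fin H × W k) J A) (l : Fin H) (x : W k × J → A)
    (p : W k × J) :
    (lvl l : Round F (W k) (Fin H × W k) J (W k × J)).step I x p
      = I.map (l, p.1) (fun m => if (l : ℕ) = 0 then I.src p.1 m else x (p.1, m))
        (fun m => if (l : ℕ) = 0 then I.src (flp (l : ℕ) p.1) m else x (flp (l : ℕ) p.1, m))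
        p.2 := by
  unfold Round.step lvl
  have h1 : ({ reg := fun _ => 0, src := fun _ _ => 0 } : Form F (W k) J (W k × J)).eval I x
      = 0 := by
    unfold Form.eval
    simp
  simp only [h1, zero_add, List.map_map]
  rw [Finset.sum_map_toList, Fintype.sum_prod_type, Finset.sum_eq_single p]
  · simp only [Function.comp_apply, rdf_eval, if_true, one_smul]
    rw [Fintype.sum_prod_type]
    rfl
  · intro q _ hq
    refine Finset.sum_eq_zero fun y _ => ?_
    simp only [Function.comp_apply]
    rw [if_neg (Ne.symm hq), zero_smul]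
  · intro h'
    exact absurd (Finset.mem_univ _) h'

lemma prog_run (I : Interp F (W k) (Fin H × W k) J A) (val : W k ⊕ (Fin H × W k) → J → A)
    (hval : IsValuation (fft k H) I val) (x : W k × J → A) (n : ℕ) (h : n + 1 ≤ H) (v : W k)
    (m : J) :
    run I (prog F J k H (n + 1) h) x (v, m) = val (Sum.inr (⟨n, h⟩, v)) m := by
  induction n generalizing v m with
  | zero =>
    rw [prog, run_append, run_single, lvl_step, hval.2]
    simp only [if_true]
    have e1 : (fft k H).fst (⟨0, h⟩, v) = Sum.inl v := rfl
    have e2 : (fft k H).snd (⟨0, h⟩, v) = Sum.inl (flp 0 v) := rfl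
    rw [e1, e2, hval.1, hval.1]
  | succ n ih =>
    rw [prog, run_append, run_single, lvl_step, hval.2]
    have e1 : (fft k H).fst (⟨n + 1, h⟩, v) = Sum.inr (⟨n, Nat.lt_of_succ_lt h⟩, v) := rfl
    have e2 : (fft k H).snd (⟨n + 1, h⟩, v)
        = Sum.inr (⟨n, Nat.lt_of_succ_lt h⟩, flp (n + 1) v) := rfl
    rw [e1, e2]
    simp only [Nat.succ_ne_zero, if_false]
    have e3 : (fun m => run I (prog F J k H (n + 1) (Nat.le_of_succ_le h)) x (v, m))
        = val (Sum.inr (⟨n, Nat.lt_of_succ_lt h⟩, v)) := by
      funext m
      exact ih _ v m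
    have e4 : (fun m => run I (prog F J k H (n + 1) (Nat.le_of_succ_le h)) x (flp (n + 1) v, m))
        = val (Sum.inr (⟨n, Nat.lt_of_succ_lt h⟩, flp (n + 1) v)) := by
      funext m
      exact ih _ (flp (n + 1) v) m
    rw [e3, e4]

lemma fft_depth (k H : ℕ) (l : ℕ) (hl : l < H) (v : W k) :
    DepthLe (fft k H) (l + 1) (Sum.inr (⟨l, hl⟩, v)) := by
  induction l generalizing v with
  | zero => exact DepthLe.gate 0 _ (DepthLe.src 0 _) (DepthLe.src 0 _)
  | succ l ih => exact DepthLe.gate (l + 1) _ (ih _ v) (ih _ _)

end

end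

end Pool.Agent.Lib.MP_9dcf40_lc.Reg
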