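import Pool.Agent.Lib.MP_9dcf40_lc.Reg.LowT
import Pool.Agent.Lib.MP_9dcf40_lc.Reg.Up

/-!
# MP_9dcf40_lc, project Reg: corollaries
-/

set_option autoImplicit false

namespace Pool.Agent.Lib.MP_9dcf40_lc.Reg

noncomputable section

/-- the arithmetic of the choice of `k` -/
lemma choice (r : ℕ) (hr : 1 ≤ r) : ∃ k : ℕ, 1 ≤ k ∧ 32 * (k * r) ≤ 2 ^ k ∧
    2 ^ k ≤ 2048 * (r * (Nat.log 2 r + 1)) ∧ k + 1 ≤ 12 * (Nat.log 2 r + 1) := by
  set a := Nat.log 2 r with ha
  set c := Nat.log 2 (a + 1) with hc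
  have h1 : 2 ^ a ≤ r := Nat.pow_log_le_self 2 (by omega)
  have h2 : r < 2 ^ (a + 1) := Nat.lt_pow_succ_log_self (by norm_num) r
  have h3 : 2 ^ c ≤ a + 1 := Nat.pow_log_le_self 2 (by omega)
  have h4 : a + 1 < 2 ^ (c + 1) := Nat.lt_pow_succ_log_self (by norm_num) (a + 1)
  have h5 : c ≤ a := by
    have h6 : c < 2 ^ c := Nat.lt_two_pow_self
    omega
  have e1 : 2 ^ (a + c + 11) = 2048 * (2 ^ a * 2 ^ c) := by
    rw [pow_add, pow_add]
    norm_num
    ring
  have e2 : 2 ^ (a + c + 11) = 512 * (2 ^ (a + 1) * 2 ^ (c + 1)) := by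
    rw [pow_add, pow_add, pow_succ, pow_succ]
    norm_num
    ring
  refine ⟨a + c + 11, by omega, ?_, ?_, by omega⟩
  · rw [e2]
    have h6 : r * (a + 1) ≤ 2 ^ (a + 1) * 2 ^ (c + 1) := Nat.mul_le_mul h2.le h4.le
    have h7 : (a + c + 11) * r ≤ 16 * (r * (a + 1)) := by
      have : a + c + 11 ≤ 16 * (a + 1) := by omega
      calc (a + c + 11) * r ≤ (16 * (a + 1)) * r := Nat.mul_le_mul_right r this
        _ = 16 * (r * (a + 1)) := by ring
    omega
  · rw [e1]
    have h6 : 2 ^ a * 2 ^ c ≤ r * (a + 1) := Nat.mul_le_mul h1 h3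
    exact Nat.mul_le_mul_left 2048 h6

/-- **tradeoff**: `r` block registers and `2 ^ q` rounds -/
theorem tradeoff (F : Type) [Field F] (b r q : ℕ) (hb : 1 ≤ b) (hr : 1 ≤ r) :
    ∃ k H : ℕ, (H + 1) * 2 ^ k ≤ 25000 * ((q + 1) * r * (Nat.log 2 r + 1) ^ 2) ∧
      ∃ (A : Type) (_ : AddCommGroup A) (_ : Module F A) (_ : Module.Finite F A)
        (I : Interp F (W k) (Fin (H + 1) × W k) (Fin b) A)
        (val : W k ⊕ (Fin (H + 1) × W k) → Fin b → A), IsValuation (fft k (H + 1)) I val ∧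
        ∀ (R : Type) [Fintype R], Fintype.card R ≤ b * r →
          ∀ (P : List (Round F (W k) (Fin (H + 1) × W k) (Fin b) R)) (g : R) (v : W k)
            (i : Fin b), run I P (fun _ => 0) g = val (Sum.inr (Fin.last H, v)) i →
            2 ^ q ≤ P.length := by
  obtain ⟨k, hk, h1, h2, h3⟩ := choice r hr
  obtain ⟨A, i1, i2, i3, I, val, hval, hlow⟩ := lower F b k (q * (k + 1)) hb hk
  refine ⟨k, q * (k + 1), ?_, A, i1, i2, i3, I, val, hval, ?_⟩
  · set a := Nat.log 2 r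
    calc (q * (k + 1) + 1) * 2 ^ k ≤ ((q + 1) * (k + 1)) * 2 ^ k := by
          refine Nat.mul_le_mul_right _ ?_
          have : (q + 1) * (k + 1) = q * (k + 1) + k + 1 := by ring
          omega
      _ ≤ ((q + 1) * (12 * (a + 1))) * (2048 * (r * (a + 1))) :=
          Nat.mul_le_mul (Nat.mul_le_mul_left _ h3) h2
      _ = 24576 * ((q + 1) * r * (a + 1) ^ 2) := by ring
      _ ≤ _ := Nat.mul_le_mul_right _ (by norm_num)
  · intro R _ hR P g v i hout
    have h4 : 32 * (k * Fintype.card R) ≤ b * 2 ^ k := by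
      calc 32 * (k * Fintype.card R) ≤ 32 * (k * (b * r)) :=
            Nat.mul_le_mul_left _ (Nat.mul_le_mul_left _ hR)
        _ = b * (32 * (k * r)) := by ring
        _ ≤ b * 2 ^ k := Nat.mul_le_mul_left _ h1
    have h5 := hlow R h4 P g v i hout
    rwa [Nat.mul_div_cancel _ (Nat.succ_pos k)] at h5

/-- level by level evaluation -/
theorem levels (F : Type) [Field F] (b k H : ℕ) :
    ∃ P : List (Round F (W k) (Fin (H + 1) × W k) (Fin b) (W k × Fin b)), P.length = H + 1 ∧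
      ∀ (A : Type) [AddCommGroup A] [Module F A]
        (I : Interp F (W k) (Fin (H + 1) × W k) (Fin b) A)
        (val : W k ⊕ (Fin (H + 1) × W k) → Fin b → A), IsValuation (fft k (H + 1)) I val →
        ∀ x v i, run I P x (v, i) = val (Sum.inr (Fin.last H, v)) i := by
  refine ⟨prog F (Fin b) k (H + 1) (H + 1) le_rfl, prog_len _ _, ?_⟩
  intro A _ _ I val hval x v i
  exact prog_run I val hval x H le_rfl v i

/-- Cook and Mertz: three block registers -/
theorem three (F : Type) [Field F] (b k H : ℕ) (v : W k) :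
    ∃ P : List (Round F (W k) (Fin (H + 1) × W k) (Fin b) (Fin 3 × Fin b)),
      P.length ≤ 3 * 4 ^ (H + 1) ∧
      ∀ (A : Type) [AddCommGroup A] [Module F A]
        (I : Interp F (W k) (Fin (H + 1) × W k) (Fin b) A)
        (val : W k ⊕ (Fin (H + 1) × W k) → Fin b → A), IsValuation (fft k (H + 1)) I val →
        ∀ x p, run I P x p
          = x p + if p.1 = 0 then val (Sum.inr (Fin.last H, v)) p.2 else 0 := by
  obtain ⟨P, h1, _, h2⟩ := cm (F := F) (J := Fin b) (fft k (H + 1)) (H + 1)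
    (Sum.inr (Fin.last H, v)) (fft_depth k (H + 1) H (Nat.lt_succ_self H) v) 0 1
  refine ⟨P, by omega, ?_⟩
  intro A _ _ I val hval x p
  rw [h2 A I val hval x]
  unfold ad
  rw [one_smul]

end

end Pool.Agent.Lib.MP_9dcf40_lc.Reg
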