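import Pool.Agent.Lib.MP_9dcf40_lc.Reg.Fft

/-!
# MP_9dcf40_lc, project Reg: the lower bound for abstract runs
-/

set_option autoImplicit false

namespace Pool.Agent.Lib.MP_9dcf40_lc.Reg

noncomputable section

variable {F : Type} [Field F] {k : ℕ} {J : Type} [Fintype J] [Nonempty J]

omit [Nonempty J] in
lemma Ex_empty (X : ℕ → ℕ → Submodule F (Fr F k J)) (l s : ℕ) : Ex X l s s = ∅ := by
  classical
  refine Finset.eq_empty_of_forall_notMem fun v hv => ?_
  obtain ⟨i, hi⟩ := (Finset.mem_filter.mp hv).2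
  rw [G_empty, Submodule.mem_bot] at hi
  exact Y_ne (l + 1) v i hi

omit [Fintype J] [Nonempty J] in
lemma card_W (A : Finset (W k)) : A.card + (Finset.univ \ A).card = 2 ^ k := by
  classical
  have h := Finset.card_add_card_compl A
  rw [Finset.compl_eq_univ_sdiff] at h
  rw [h]
  simp

/-- amplification over `k` levels -/
lemma amp (X : ℕ → ℕ → Submodule F (Fr F k J)) (a s e : ℕ)
    (ρ' : ℕ) (hE : ∀ j, Fintype.card J * (Av X (a + j + 1) s e \ Ex X (a + j) s e).card ≤ ρ') :
    Fintype.card J * ((Ex X (a + k) s e).card * (Finset.univ \ Ex X a s e).card)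
      ≤ k * ρ' * 2 ^ k := by
  classical
  refine fftComb a (Fintype.card J) ρ' (fun j => Ex X (a + j) s e)
    (fun j => Av X (a + j + 1) s e \ Ex X (a + j) s e) hE ?_
  intro j _ x hx
  have hx' : x ∈ Ex X (a + j + 1) s e := hx
  obtain ⟨h1, h2⟩ := child X (a + j + 1) s e x hx'
  constructor
  · by_cases h : x ∈ Ex X (a + j) s e
    · exact Or.inl h
    · exact Or.inr (Finset.mem_sdiff.mpr ⟨h1, h⟩)
  · by_cases h : flp (a + j + 1) x ∈ Ex X (a + j) s e
    · exact Or.inl h
    · exact Or.inr (Finset.mem_sdiff.mpr ⟨h2, h⟩)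

/-- one splitting: from `7/8` of a level to `1/4` of the next one in both parts -/
lemma two {X : ℕ → ℕ → Submodule F (Fr F k J)} {ρ : ℕ} (hX : Run X ρ)
    (hk : 1 ≤ k) (hρ : 32 * (k * ρ) ≤ Fintype.card J * 2 ^ k) (a s e : ℕ) (hse : s ≤ e)
    (h : 7 * 2 ^ k ≤ 8 * (Ex X (a + 1) s e).card) :
    ∃ m, s ≤ m ∧ m ≤ e ∧ 2 ^ k ≤ 4 * (Ex X a s m).card ∧ 2 ^ k ≤ 4 * (Ex X a m e).card := by
  have hb : 0 < Fintype.card J := Fintype.card_pos
  have h2k : 0 < 2 ^ k := by positivity
  obtain ⟨m, h1, h2, h3, h4⟩ := balance hX a s e hse (by omega)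
  have hρ' : 32 * ρ ≤ Fintype.card J * 2 ^ k := by
    have : ρ ≤ k * ρ := Nat.le_mul_of_pos_left ρ hk
    omega
  have h7 : 7 * (Fintype.card J * 2 ^ k) ≤ 8 * (Fintype.card J * (Ex X (a + 1) s e).card) := by
    calc 7 * (Fintype.card J * 2 ^ k) = Fintype.card J * (7 * 2 ^ k) := by ring
      _ ≤ Fintype.card J * (8 * (Ex X (a + 1) s e).card) := Nat.mul_le_mul_left _ h
      _ = _ := by ring
  refine ⟨m, h1, h2, ?_, ?_⟩
  · refine Nat.le_of_mul_le_mul_left ?_ hb
    have e1 : Fintype.card J * (4 * (Ex X a s m).card)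
        = 4 * (Fintype.card J * (Ex X a s m).card) := by ring
    rw [e1]
    omega
  · refine Nat.le_of_mul_le_mul_left ?_ hb
    have e1 : Fintype.card J * (4 * (Ex X a m e).card)
        = 4 * (Fintype.card J * (Ex X a m e).card) := by ring
    rw [e1]
    omega

/-- the induction -/
lemma ind {X : ℕ → ℕ → Submodule F (Fr F k J)} {ρ : ℕ} (hX : Run X ρ)
    (hk : 1 ≤ k) (hρ : 32 * (k * ρ) ≤ Fintype.card J * 2 ^ k) (q : ℕ) :
    ∀ l s e, q * (k + 1) ≤ l → s ≤ e → 2 ^ k ≤ 4 * (Ex X l s e).card → 2 ^ q ≤ e - s := by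
  have hb : 0 < Fintype.card J := Fintype.card_pos
  have h2k : 0 < 2 ^ k := by positivity
  induction q with
  | zero =>
    intro l s e _ hse h
    rcases Nat.eq_or_lt_of_le hse with h1 | h1
    · subst h1
      rw [Ex_empty, Finset.card_empty] at h
      omega
    · rw [pow_zero]
      omega
  | succ q ih =>
    intro l s e hl hse h
    have e0 : (q + 1) * (k + 1) = q * (k + 1) + (k + 1) := by ring
    rw [e0] at hl
    obtain ⟨a, rfl⟩ : ∃ a, l = a + 1 + k := ⟨l - (k + 1), by omega⟩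
    have hA := amp X (a + 1) s e ρ fun j => by
      have := av_ex hX (a + 1 + j) s e
      exact this
    have hW := card_W (Ex X (a + 1) s e)
    set A := (Ex X (a + 1 + k) s e).card
    set B := (Finset.univ \ Ex X (a + 1) s e).card
    have h8 : 7 * 2 ^ k ≤ 8 * (Ex X (a + 1) s e).card := by
      have h5 : 8 * B ≤ 2 ^ k := by
        have h6 : (Fintype.card J * 2 ^ k) * (8 * B) ≤ (Fintype.card J * 2 ^ k) * 2 ^ k := by
          calc (Fintype.card J * 2 ^ k) * (8 * B) = 8 * (Fintype.card J * (2 ^ k * B)) := by ring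
            _ ≤ 8 * (Fintype.card J * ((4 * A) * B)) := by
                refine Nat.mul_le_mul_left _ (Nat.mul_le_mul_left _ (Nat.mul_le_mul_right _ h))
            _ = 32 * (Fintype.card J * (A * B)) := by ring
            _ ≤ 32 * (k * ρ * 2 ^ k) := Nat.mul_le_mul_left _ hA
            _ = (32 * (k * ρ)) * 2 ^ k := by ring
            _ ≤ (Fintype.card J * 2 ^ k) * 2 ^ k := Nat.mul_le_mul_right _ hρ
        exact Nat.le_of_mul_le_mul_left h6 (Nat.mul_pos hb h2k)
      omega
    obtain ⟨m, h1, h2, h3, h4⟩ := two hX hk hρ a s e hse h8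
    have i1 := ih a s m (by omega) h1 h3
    have i2 := ih a m e (by omega) h2 h4
    rw [pow_succ]
    omega

/-- **the lower bound for abstract runs** -/
theorem core {X : ℕ → ℕ → Submodule F (Fr F k J)} {ρ : ℕ} (hX : Run X ρ)
    (hk : 1 ≤ k) (hρ : 32 * (k * ρ) ≤ Fintype.card J * 2 ^ k) (H L : ℕ) (v : W k) (i : J)
    (hout : Y (H + 1) v i ∈ X (H + 1) L) : 2 ^ (H / (k + 1)) ≤ L := by
  classical
  have hb : 0 < Fintype.card J := Fintype.card_pos
  have h2k : 0 < 2 ^ k := by positivity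
  have hv : v ∈ Ex X H 0 L := by
    refine Finset.mem_filter.mpr ⟨Finset.mem_univ _, i, ?_⟩
    have h := X_le hX H 0 L (Nat.zero_le _) hout
    rwa [hX.start, bot_sup_eq] at h
  have hL : 0 < L := by
    rcases Nat.eq_zero_or_pos L with h | h
    · rw [h, Ex_empty] at hv
      exact absurd hv (Finset.notMem_empty _)
    · exact h
  rcases Nat.lt_or_ge H (k + 1) with hH | hH
  · rw [Nat.div_eq_of_lt hH, pow_zero]
    exact hL
  · obtain ⟨a, rfl⟩ : ∃ a, H = a + 1 + k := ⟨H - (k + 1), by omega⟩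
    have hA := amp X (a + 1) 0 L 0 fun j => by
      refine key X (a + 1 + j) 0 L ⊥ 0 inferInstance (by simp) _ ?_
      intro u hu i
      have h := N_le hX (a + 1 + j) 0 L ((Finset.mem_filter.mp hu).2 i)
      rwa [hX.start] at h
    have hpos : 0 < (Ex X (a + 1 + k) 0 L).card := Finset.card_pos.mpr ⟨v, hv⟩
    have hB : (Finset.univ \ Ex X (a + 1) 0 L).card = 0 := by
      rw [Nat.mul_zero, Nat.zero_mul] at hA
      have h1 : Fintype.card J * ((Ex X (a + 1 + k) 0 L).card
          * (Finset.univ \ Ex X (a + 1) 0 L).card) = 0 := Nat.le_zero.mp hA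
      rcases Nat.mul_eq_zero.mp h1 with h2 | h2
      · omega
      · rcases Nat.mul_eq_zero.mp h2 with h3 | h3
        · omega
        · exact h3
    have hW := card_W (Ex X (a + 1) 0 L)
    obtain ⟨m, h1, h2, h3, h4⟩ := two hX hk hρ a 0 L (Nat.zero_le _) (by omega)
    have e1 : (a + 1 + k) / (k + 1) = a / (k + 1) + 1 := by
      have : a + 1 + k = a + (k + 1) := by ring
      rw [this, Nat.add_div_right _ (Nat.succ_pos k)]
    have i1 := ind hX hk hρ (a / (k + 1)) a 0 m (Nat.div_mul_le_self _ _) h1 h3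
    have i2 := ind hX hk hρ (a / (k + 1)) a m L (Nat.div_mul_le_self _ _) h2 h4
    rw [e1, pow_succ]
    omega

end

end Pool.Agent.Lib.MP_9dcf40_lc.Reg
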