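import Mathlib

/-!
# MP_9dcf40_lc, project Reg: circuits, interpretations, register programs

The definitions which occur in the final statement.
-/

set_option autoImplicit false

namespace Pool.Agent.Lib.MP_9dcf40_lc.Reg

noncomputable section

/-- a circuit of fan-in two with sources `S` and gates `V`: the two ordered children of a gate -/
structure Circuit (S V : Type) where
  fst : V → S ⊕ V
  snd : V → S ⊕ V

/-- the node has depth at most `h` (sources have depth `0`) -/
inductive DepthLe {S V : Type} (C : Circuit S V) : ℕ → S ⊕ V → Prop
  | src (h : ℕ) (s : S) : DepthLe C h (Sum.inl s)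
  | gate (h : ℕ) (v : V) : DepthLe C h (C.fst v) → DepthLe C h (C.snd v) →
      DepthLe C (h + 1) (Sum.inr v)

/-- an interpretation with blocks `J → A` (`A` a vector space over `F`, `J` the finite set of
coordinates of a block): the values of the sources and, for every gate `v`, the components
`gate v i j j' : A × A → A` of an arbitrary bilinear map `(J → A) × (J → A) → (J → A)` -/
structure Interp (F S V J A : Type) [Field F] [AddCommGroup A] [Module F A] where
  src : S → J → A
  gate : V → J → J → J → A →ₗ[F] A →ₗ[F] A

/-- the bilinear map of the gate `v`:
`(x, y) ↦ (∑_{j, j'} gate v i j j' (x j) (y j'))_i` -/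
def Interp.map {F S V J A : Type} [Field F] [AddCommGroup A] [Module F A] [Fintype J]
    (I : Interp F S V J A) (v : V) (x y : J → A) : J → A :=
  fun i => ∑ j, ∑ j', I.gate v i j j' (x j) (y j')

/-- `val` is the evaluation of the circuit -/
def IsValuation {F S V J A : Type} [Field F] [AddCommGroup A] [Module F A] [Fintype J]
    (C : Circuit S V) (I : Interp F S V J A) (val : S ⊕ V → J → A) : Prop :=
  (∀ s, val (Sum.inl s) = I.src s) ∧
    ∀ v, val (Sum.inr v) = I.map v (val (C.fst v)) (val (C.snd v))

/-- a linear form in the registers `R` and in the coordinates of the sources -/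
structure Form (F S J R : Type) where
  reg : R → F
  src : S → J → F

/-- an elementary call: the component `(out, in₁, in₂)` of the bilinear map of a gate is applied
to two linear forms, and the result is added to every register `r` with the coefficient `tgt r` -/
structure Call (F S V J R : Type) where
  gate : V
  out : J
  in₁ : J
  in₂ : J
  arg₁ : Form F S J R
  arg₂ : Form F S J R
  tgt : R → F

/-- a round: all registers are replaced simultaneously by linear forms (in the old contents of
the registers and the coordinates of the sources), and the results of any number of elementary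
calls (evaluated at the old contents) are added -/
structure Round (F S V J R : Type) where
  lin : R → Form F S J R
  calls : List (Call F S V J R)

section
variable {F S V J A R : Type} [Field F] [AddCommGroup A] [Module F A] [Fintype S] [Fintype J]
  [Fintype R]

/-- the value of a linear form, `x` the contents of the registers -/
def Form.eval (l : Form F S J R) (I : Interp F S V J A) (x : R → A) : A :=
  ∑ r, l.reg r • x r + ∑ s, ∑ j, l.src s j • I.src s j

/-- the effect of a round -/
def Round.step (ρ : Round F S V J R) (I : Interp F S V J A) (x : R → A) : R → A := fun r =>
  (ρ.lin r).eval I x + (ρ.calls.map fun c =>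
    c.tgt r • I.gate c.gate c.out c.in₁ c.in₂ (c.arg₁.eval I x) (c.arg₂.eval I x)).sum

/-- the contents of the registers after the program (a list of rounds) -/
def run (I : Interp F S V J A) (P : List (Round F S V J R)) (x : R → A) : R → A :=
  P.foldl (fun y ρ => ρ.step I y) x

end

/-! ## three block registers -/

section
variable {F S V J : Type} [Field F] [DecidableEq S] [DecidableEq J]

/-- the form which reads the register `p` -/
def Form.read {R : Type} [DecidableEq R] (p : R) : Form F S J R where
  reg := fun r => if r = p then 1 else 0
  src := fun _ _ => 0

/-- `block i += c * source s` (three block registers) -/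
def Round.addSrc (i : Fin 3) (s : S) (c : F) : Round F S V J (Fin 3 × J) where
  lin := fun p =>
    { reg := fun r => if r = p then 1 else 0
      src := fun s' j => if p.1 = i ∧ s' = s ∧ j = p.2 then c else 0 }
  calls := []

/-- `block i += c * f_v (block j, block l)` (three block registers), `f_v` the bilinear map of
the gate `v` -/
def Round.addCall [Fintype J] (i j l : Fin 3) (v : V) (c : F) :
    Round F S V J (Fin 3 × J) where
  lin := fun p => Form.read p
  calls := (Finset.univ : Finset (J × J × J)).toList.map fun a =>
    { gate := v
      out := a.1
      in₁ := a.2.1
      in₂ := a.2.2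
      arg₁ := Form.read (j, a.2.1)
      arg₂ := Form.read (l, a.2.2)
      tgt := fun p => if p = (i, a.1) then c else 0 }

/-- a single instruction: a source or a gate value is added to a block register; the three block
registers of a gate instruction are different -/
def Round.Basic [Fintype J] (ρ : Round F S V J (Fin 3 × J)) : Prop :=
  (∃ i s c, ρ = Round.addSrc i s c) ∨
    ∃ i j l v c, i ≠ j ∧ i ≠ l ∧ j ≠ l ∧ ρ = Round.addCall i j l v c

end

/-! ## the stack of FFT graphs -/

/-- the nodes of one level: `2 ^ k` bit vectors -/
abbrev W (k : ℕ) := Fin k → Bool

/-- the partner of a node: the bit with number `l mod k` is flipped -/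
def flp {k : ℕ} (l : ℕ) (v : W k) : W k := fun c => if (c : ℕ) = l % k then !(v c) else v c

/-- the node `v` of the level below the level of the gates `(l, ·)` -/
def below (k H : ℕ) : Fin H → W k → W k ⊕ (Fin H × W k)
  | ⟨0, _⟩, v => Sum.inl v
  | ⟨l + 1, h⟩, v => Sum.inr (⟨l, Nat.lt_of_succ_lt h⟩, v)

/-- the stack of FFT graphs with `H` levels of `2 ^ k` gates: the children of the gate `(l, v)`
are the nodes `v` and `v` with bit `l mod k` flipped of the level below -/
def fft (k H : ℕ) : Circuit (W k) (Fin H × W k) where
  fst := fun g => below k H g.1 g.2
  snd := fun g => below k H g.1 (flp (g.1 : ℕ) g.2)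

end

end Pool.Agent.Lib.MP_9dcf40_lc.Reg
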