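import Pool.Agent.Lib.MP_9dcf40_lc.Reg.Tree
import Pool.Agent.Lib.MP_9dcf40_lc.Reg.Model

/-!
# MP_9dcf40_lc, project Reg: levels, the values of the stack of FFT graphs

Labels `(l, v, i, j, j')`: gate `v` of level `l + 1`, coordinate `i`, coordinates `j`, `j'` of the two
arguments.  Leaves `(v, j)`.  `Y l v i` is the `i`-th coordinate of the value of node `v` of level `l`.
-/

set_option autoImplicit false

namespace Pool.Agent.Lib.MP_9dcf40_lc.Reg

noncomputable section

lemma flp_flp {k : ℕ} (l : ℕ) (v : W k) : flp l (flp l v) = v := by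
  funext c
  unfold flp
  split_ifs <;> simp

/-- labels -/
abbrev Lab (k : ℕ) (J : Type) := ℕ × W k × J × J × J

/-- leaves -/
abbrev Lef (k : ℕ) (J : Type) := W k × J

variable {F : Type} [Field F] {k : ℕ} {J : Type}

/-- the free algebra of the stack -/
abbrev Fr (F : Type) [Field F] (k : ℕ) (J : Type) := Alg F (Lef k J) (Lab k J)

/-- trees of level `l` -/
def IsLv : ℕ → Tr (Lef k J) (Lab k J) → Prop
  | 0, Tr.leaf _ => True
  | 0, Tr.node _ _ _ => False
  | _ + 1, Tr.leaf _ => False
  | l + 1, Tr.node c a b => c.1 = l ∧ IsLv l a ∧ IsLv l b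

/-- projection on level `l` -/
def pr (l : ℕ) : Fr F k J →ₗ[F] Fr F k J := fil (IsLv l)

open Classical in
lemma pr_op (l : ℕ) (c : Lab k J) (x y : Fr F k J) :
    pr (l + 1) (op c x y) = if c.1 = l then op c (pr l x) (pr l y) else 0 := by
  refine Finsupp.ext fun t => ?_
  rw [pr, fil_apply]
  cases t with
  | leaf s =>
    rw [op_apply_leaf, ite_self]
    split_ifs
    · rw [op_apply_leaf]
    · rfl
  | node c' a b =>
    rw [op_apply_node]
    by_cases hc : c = c'
    · subst hc
      by_cases hl : c.1 = l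
      · rw [if_pos hl, op_apply_node, if_pos rfl, if_pos rfl, pr, fil_apply, fil_apply]
        by_cases ha : IsLv l a
        · by_cases hb : IsLv l b
          · rw [if_pos ha, if_pos hb, if_pos]
            exact ⟨hl, ha, hb⟩
          · rw [if_pos ha, if_neg hb, if_neg, mul_zero]
            exact fun h => hb h.2.2
        · rw [if_neg ha, if_neg, zero_mul]
          exact fun h => ha h.2.1
      · rw [if_neg hl, if_neg]
        · rfl
        · exact fun h => hl h.1
    · rw [if_neg hc]
      by_cases hl : c.1 = l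
      · rw [if_pos hl, op_apply_node, if_neg hc]
        split_ifs <;> rfl
      · rw [if_neg hl]
        split_ifs <;> rfl

lemma pr_zero_op (c : Lab k J) (x y : Fr F k J) : pr 0 (op c x y) = 0 := by
  refine Finsupp.ext fun t => ?_
  rw [pr, fil_apply]
  cases t with
  | leaf s =>
    rw [op_apply_leaf]
    split_ifs <;> rfl
  | node c' a b =>
    rw [if_neg]
    · rfl
    · exact fun h => h

/-- a source coordinate -/
def lf (s : Lef k J) : Fr F k J := Finsupp.single (Tr.leaf s) 1

lemma pr_lf_zero (s : Lef k J) : pr 0 (lf s : Fr F k J) = lf s := by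
  refine Finsupp.ext fun t => ?_
  rw [pr, fil_apply]
  cases t with
  | leaf s' =>
    rw [if_pos]
    trivial
  | node c' a b =>
    rw [if_neg]
    · simp [lf]
    · exact fun h => h

lemma pr_lf_succ (l : ℕ) (s : Lef k J) : pr (l + 1) (lf s : Fr F k J) = 0 := by
  refine Finsupp.ext fun t => ?_
  rw [pr, fil_apply]
  cases t with
  | leaf s' =>
    rw [if_neg]
    · rfl
    · exact fun h => h
  | node c' a b =>
    simp [lf]

variable [Fintype J]

/-- the bilinear map of a gate in the free algebra: coordinate `i` -/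
def gt (l : ℕ) (v : W k) (i : J) (x y : J → Fr F k J) : Fr F k J :=
  ∑ j, ∑ j', op (l, v, i, j, j') (x j) (y j')

/-- the values of the nodes -/
def Y : ℕ → W k → J → Fr F k J
  | 0, v, i => lf (v, i)
  | l + 1, v, i => gt l v i (Y l v) (Y l (flp l v))

lemma pr_Y (l : ℕ) (v : W k) (i : J) : pr l (Y l v i : Fr F k J) = Y l v i := by
  induction l generalizing v i with
  | zero => exact pr_lf_zero _
  | succ l ih =>
    simp only [Y, gt, map_sum, pr_op, if_true, ih]

/-- a special tree in the support of `Y l v i` -/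
def sp (j₀ : J) : ℕ → W k → J → Tr (Lef k J) (Lab k J)
  | 0, v, i => Tr.leaf (v, i)
  | l + 1, v, i => Tr.node (l, v, i, j₀, j₀) (sp j₀ l v j₀) (sp j₀ l (flp l v) j₀)

open Classical in
lemma Y_sp (j₀ : J) (l : ℕ) (v v' : W k) (i i' : J) :
    (Y l v i : Fr F k J) (sp j₀ l v' i') = if (v, i) = (v', i') then 1 else 0 := by
  induction l generalizing v v' i i' with
  | zero =>
    simp only [Y, lf, sp, Finsupp.single_apply]
    congr 1
    simp
  | succ l ih =>
    simp only [Y, gt, sp, Finsupp.finsetSum_apply, op_apply_node]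
    by_cases h : (v, i) = (v', i')
    · rw [if_pos h]
      obtain ⟨rfl, rfl⟩ := Prod.mk.inj h
      rw [Finset.sum_eq_single j₀, Finset.sum_eq_single j₀]
      · rw [if_pos rfl, ih, ih, if_pos rfl, if_pos rfl, mul_one]
      · intro j' _ hj'
        rw [if_neg]
        intro h'
        simp only [Prod.mk.injEq] at h'
        exact hj' h'.2.2.2.2
      · intro h'
        exact absurd (Finset.mem_univ _) h'
      · intro j _ hj
        refine Finset.sum_eq_zero fun j' _ => ?_
        rw [if_neg]
        intro h'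
        simp only [Prod.mk.injEq] at h'
        exact hj h'.2.2.2.1
      · intro h'
        exact absurd (Finset.mem_univ _) h'
    · rw [if_neg h]
      refine Finset.sum_eq_zero fun j _ => Finset.sum_eq_zero fun j' _ => ?_
      rw [if_neg]
      intro h'
      apply h
      simp only [Prod.mk.injEq] at h'
      rw [h'.2.1, h'.2.2.1]

lemma Y_ne (l : ℕ) (v : W k) (i : J) : (Y l v i : Fr F k J) ≠ 0 := by
  classical
  intro h
  have h1 := Y_sp (F := F) i l v v i i
  rw [h, if_pos rfl] at h1
  exact zero_ne_one h1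

/-- `Ph` on `Y`: recovering the second child from the first -/
lemma Ph_Y (l : ℕ) (v : W k) (i j j' : J) (φ : Fr F k J →ₗ[F] F) :
    Ph (l, v, i, j, j') φ (Y (l + 1) v i) = φ (Y l v j) • Y l (flp l v) j' := by
  classical
  simp only [Y, gt, map_sum, Ph_op]
  rw [Finset.sum_eq_single j, Finset.sum_eq_single j']
  · rw [if_pos rfl]
  · intro m _ hm
    rw [if_neg]
    intro h'
    simp only [Prod.mk.injEq] at h'
    exact hm h'.2.2.2.2
  · intro h'
    exact absurd (Finset.mem_univ _) h'
  · intro m _ hm
    refine Finset.sum_eq_zero fun m' _ => ?_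
    rw [if_neg]
    intro h'
    simp only [Prod.mk.injEq] at h'
    exact hm h'.2.2.2.1
  · intro h'
    exact absurd (Finset.mem_univ _) h'

/-- root predicate: the root is a call of coordinate `i` of the gate `v` of level `l + 1` -/
def Rt (l : ℕ) (v : W k) (i : J) : Tr (Lef k J) (Lab k J) → Prop
  | Tr.leaf _ => False
  | Tr.node c _ _ => c.1 = l ∧ c.2.1 = v ∧ c.2.2.1 = i

omit [Fintype J] in
open Classical in
lemma Rt_op (l : ℕ) (v : W k) (i : J) (c : Lab k J) (x y : Fr F k J) :
    fil (Rt l v i) (op c x y) = if c.1 = l ∧ c.2.1 = v ∧ c.2.2.1 = i then op c x y else 0 := by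
  refine Finsupp.ext fun t => ?_
  rw [fil_apply]
  cases t with
  | leaf s =>
    rw [op_apply_leaf]
    split_ifs <;> first | rfl | (rw [op_apply_leaf])
  | node c' a b =>
    rw [op_apply_node]
    by_cases hc : c = c'
    · subst hc
      by_cases h : c.1 = l ∧ c.2.1 = v ∧ c.2.2.1 = i
      · rw [if_pos h, if_pos rfl, op_apply_node, if_pos rfl, if_pos]
        exact h
      · rw [if_neg h, if_neg]
        · rfl
        · exact h
    · rw [if_neg hc]
      by_cases h : c.1 = l ∧ c.2.1 = v ∧ c.2.2.1 = i
      · rw [if_pos h, op_apply_node, if_neg hc]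
        split_ifs <;> rfl
      · rw [if_neg h]
        split_ifs <;> rfl

open Classical in
lemma Rt_Y (l : ℕ) (v v' : W k) (i i' : J) :
    fil (Rt l v i) (Y (l + 1) v' i' : Fr F k J) = if (v', i') = (v, i) then Y (l + 1) v' i' else 0 := by
  simp only [Y, gt, map_sum, Rt_op]
  by_cases h : (v', i') = (v, i)
  · obtain ⟨rfl, rfl⟩ := Prod.mk.inj h
    rw [if_pos rfl]
    refine Finset.sum_congr rfl fun j _ => Finset.sum_congr rfl fun j' _ => ?_
    simp
  · rw [if_neg h]
    refine Finset.sum_eq_zero fun j _ => Finset.sum_eq_zero fun j' _ => ?_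
    rw [if_neg]
    rintro ⟨_, h1, h2⟩
    exact h (Prod.ext h1 h2)

end

end Pool.Agent.Lib.MP_9dcf40_lc.Reg
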