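import Pool.Agent.Lib.MP_9dcf40_lc.Reg.Ind

/-!
# MP_9dcf40_lc, project Reg: the lower bound for register programs
-/

set_option autoImplicit false

namespace Pool.Agent.Lib.MP_9dcf40_lc.Reg

noncomputable section

variable {F : Type} [Field F] {k : ℕ} {J : Type} [Fintype J]

/-- the free interpretation -/
def frI (F : Type) [Field F] (k H : ℕ) (J : Type) [Fintype J] :
    Interp F (W k) (Fin H × W k) J (Fr F k J) where
  src := fun v j => lf (v, j)
  gate := fun g i j j' => op ((g.1 : ℕ), g.2, i, j, j')

/-- its evaluation -/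
def frV (F : Type) [Field F] (k H : ℕ) (J : Type) [Fintype J] :
    W k ⊕ (Fin H × W k) → J → Fr F k J
  | Sum.inl v => Y 0 v
  | Sum.inr g => Y ((g.1 : ℕ) + 1) g.2

lemma frV_below (H : ℕ) (l : Fin H) (v : W k) :
    frV F k H J (below k H l v) = Y (l : ℕ) v := by
  obtain ⟨l, hl⟩ := l
  cases l with
  | zero => rfl
  | succ l => rfl

lemma frV_val (H : ℕ) : IsValuation (fft k H) (frI F k H J) (frV F k H J) := by
  constructor
  · intro s
    rfl
  · intro g
    funext i
    change Y ((g.1 : ℕ) + 1) g.2 i = gt (g.1 : ℕ) g.2 i (frV F k H J (below k H g.1 g.2))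
      (frV F k H J (below k H g.1 (flp (g.1 : ℕ) g.2)))
    rw [frV_below, frV_below]
    rfl

/-- the span of the source coordinates -/
def Sr (F : Type) [Field F] (k : ℕ) (J : Type) : Submodule F (Fr F k J) :=
  Submodule.span F (Set.range (lf : Lef k J → Fr F k J))

variable {R : Type} [Fintype R]

/-- the contents of the registers at time `t` -/
def ct (H : ℕ) (P : List (Round F (W k) (Fin H × W k) J R)) (t : ℕ) : R → Fr F k J :=
  run (frI F k H J) (P.take t) (fun _ => 0)

/-- the memory at time `t` -/
def Mem (H : ℕ) (P : List (Round F (W k) (Fin H × W k) J R)) (t : ℕ) : Submodule F (Fr F k J) :=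
  Submodule.span F (Set.range (ct H P t))

/-- the levels of the memory -/
def Xs (H : ℕ) (P : List (Round F (W k) (Fin H × W k) J R)) (l t : ℕ) :
    Submodule F (Fr F k J) :=
  (Mem H P t ⊔ Sr F k J).map (pr l)

lemma Sr_map (l : ℕ) : (Sr F k J).map (pr (l + 1)) = ⊥ := by
  rw [Sr, Submodule.map_span, Submodule.span_eq_bot]
  rintro _ ⟨_, ⟨s, rfl⟩, rfl⟩
  exact pr_lf_succ l s

lemma Xs_succ (H : ℕ) (P : List (Round F (W k) (Fin H × W k) J R)) (l t : ℕ) :
    Xs H P (l + 1) t = (Mem H P t).map (pr (l + 1)) := by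
  rw [Xs, Submodule.map_sup, Sr_map, sup_bot_eq]

/-- the value of a form is in the memory plus the sources -/
lemma form_mem (H : ℕ) (x : R → Fr F k J) (f : Form F (W k) J R) :
    f.eval (frI F k H J) x ∈ Submodule.span F (Set.range x) ⊔ Sr F k J := by
  unfold Form.eval
  refine Submodule.add_mem _ (Submodule.sum_mem _ fun r _ => ?_)
    (Submodule.sum_mem _ fun s _ => Submodule.sum_mem _ fun j _ => ?_)
  · exact Submodule.mem_sup_left (Submodule.smul_mem _ _ (Submodule.subset_span ⟨r, rfl⟩))
  · exact Submodule.mem_sup_right (Submodule.smul_mem _ _ (Submodule.subset_span ⟨(s, j), rfl⟩))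

lemma ct_zero (H : ℕ) (P : List (Round F (W k) (Fin H × W k) J R)) :
    ct H P 0 = fun _ => 0 := rfl

lemma ct_len (H : ℕ) (P : List (Round F (W k) (Fin H × W k) J R)) :
    ct H P P.length = run (frI F k H J) P (fun _ => 0) := by
  unfold ct
  rw [List.take_length]

lemma ct_succ (H : ℕ) (P : List (Round F (W k) (Fin H × W k) J R)) (t : ℕ) :
    (ct H P (t + 1) = ct H P t) ∨ ∃ ρ : Round F (W k) (Fin H × W k) J R,
      ct H P (t + 1) = ρ.step (frI F k H J) (ct H P t) := by
  rcases Nat.lt_or_ge t P.length with h | h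
  · right
    refine ⟨P[t], ?_⟩
    unfold ct
    rw [← List.take_append_getElem h]
    unfold run
    rw [List.foldl_append]
    rfl
  · left
    unfold ct
    rw [List.take_of_length_le h, List.take_of_length_le (by omega)]

/-- the projection of a call -/
lemma call_mem (H : ℕ) (P : List (Round F (W k) (Fin H × W k) J R)) (l t : ℕ)
    (g : Fin H × W k) (i j j' : J) (x y : Fr F k J)
    (hx : x ∈ Mem H P t ⊔ Sr F k J) (hy : y ∈ Mem H P t ⊔ Sr F k J) :
    pr (l + 1) ((frI F k H J).gate g i j j' x y) ∈ G (Xs H P) l t (t + 1) := by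
  classical
  change pr (l + 1) (op ((g.1 : ℕ), g.2, i, j, j') x y) ∈ _
  rw [pr_op]
  split_ifs with h
  · refine Submodule.subset_span ⟨t, _, _, _, le_rfl, Nat.lt_succ_self t, h, ?_, ?_, rfl⟩
    · exact Submodule.mem_map_of_mem hx
    · exact Submodule.mem_map_of_mem hy
  · exact Submodule.zero_mem _

lemma isRun (H : ℕ) (P : List (Round F (W k) (Fin H × W k) J R)) :
    Run (Xs H P) (Fintype.card R) where
  fin := by
    intro l t
    rw [Xs_succ]
    have : Module.Finite F (Mem H P t) := Module.Finite.span_of_finite F (Set.finite_range _)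
    infer_instance
  rank := by
    intro l t
    rw [Xs_succ]
    have : Module.Finite F (Mem H P t) := Module.Finite.span_of_finite F (Set.finite_range _)
    exact (Submodule.finrank_map_le _ _).trans (finrank_range_le_card (ct H P t))
  start := by
    intro l
    rw [Xs_succ, Mem, ct_zero, Submodule.map_span, Submodule.span_eq_bot]
    rintro _ ⟨_, ⟨s, rfl⟩, rfl⟩
    exact map_zero _
  step := by
    intro l t
    rw [Xs_succ, Xs_succ]
    rcases ct_succ H P t with h | ⟨ρ, h⟩
    · unfold Mem
      rw [h]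
      exact le_sup_left
    · rw [Submodule.map_le_iff_le_comap]
      refine Submodule.span_le.mpr ?_
      rintro _ ⟨r, rfl⟩
      change pr (l + 1) (ct H P (t + 1) r) ∈
        (Mem H P t).map (pr (l + 1)) ⊔ G (Xs H P) l t (t + 1)
      rw [h]
      unfold Round.step
      rw [map_add]
      have hm : ∀ f : Form F (W k) J R, f.eval (frI F k H J) (ct H P t) ∈
          Mem H P t ⊔ Sr F k J := fun f => form_mem H (ct H P t) f
      refine Submodule.add_mem _ ?_ ?_
      · refine Submodule.mem_sup_left ?_
        rw [← Xs_succ]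
        exact Submodule.mem_map_of_mem (hm _)
      · refine Submodule.mem_sup_right ?_
        rw [map_list_sum, List.map_map]
        refine list_sum_mem fun z hz => ?_
        obtain ⟨c, _, rfl⟩ := List.mem_map.mp hz
        rw [Function.comp_apply, map_smul]
        exact Submodule.smul_mem _ _ (call_mem H P l t c.gate c.out c.in₁ c.in₂ _ _ (hm _) (hm _))

/-- the lower bound in the free algebra -/
theorem lowerFree (F : Type) [Field F] (k H : ℕ) (J : Type) [Fintype J] [Nonempty J]
    (hk : 1 ≤ k) (R : Type) [Fintype R]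
    (hR : 32 * (k * Fintype.card R) ≤ Fintype.card J * 2 ^ k)
    (P : List (Round F (W k) (Fin (H + 1) × W k) J R)) (r : R) (v : W k) (i : J)
    (hout : pr (H + 1) (run (frI F k (H + 1) J) P (fun _ => 0) r) = Y (H + 1) v i) :
    2 ^ (H / (k + 1)) ≤ P.length := by
  refine core (isRun (H + 1) P) hk hR H P.length v i ?_
  rw [Xs_succ, ← hout]
  refine Submodule.mem_map_of_mem (Submodule.subset_span ⟨r, ?_⟩)
  rw [ct_len]

end

end Pool.Agent.Lib.MP_9dcf40_lc.Reg
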