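import Pool.Agent.Lib.MP_9dcf40_lc.Reg.Low

/-!
# MP_9dcf40_lc, project Reg: the lower bound in a finite dimensional space
-/

set_option autoImplicit false

namespace Pool.Agent.Lib.MP_9dcf40_lc.Reg

noncomputable section

/-- trees of level at most `n` -/
def Tn (k : ℕ) (J : Type) (n : ℕ) : Set (Tr (Lef k J) (Lab k J)) := {t | ∃ l, l ≤ n ∧ IsLv l t}

lemma IsLv_finite {k : ℕ} {J : Type} [Finite J] (l : ℕ) :
    {t : Tr (Lef k J) (Lab k J) | IsLv l t}.Finite := by
  induction l with
  | zero =>
    refine (Set.finite_range (Tr.leaf : Lef k J → Tr (Lef k J) (Lab k J))).subset ?_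
    intro t ht
    cases t with
    | leaf s => exact ⟨s, rfl⟩
    | node c a b => exact absurd ht (fun h => h)
  | succ l ih =>
    have hu : (Set.univ : Set (W k × J × J × J)).Finite := Set.finite_univ
    have hf := Set.Finite.image2 (fun (c : W k × J × J × J)
      (p : Tr (Lef k J) (Lab k J) × Tr (Lef k J) (Lab k J)) =>
        (Tr.node ((l, c) : Lab k J) p.1 p.2 : Tr (Lef k J) (Lab k J))) hu (ih.prod ih)
    refine hf.subset ?_
    intro t ht
    cases t with
    | leaf s => exact absurd ht (fun h => h)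
    | node c a b =>
      obtain ⟨h1, h2, h3⟩ := ht
      refine ⟨c.2, Set.mem_univ _, (a, b), ⟨h2, h3⟩, ?_⟩
      change Tr.node (l, c.2) a b = Tr.node c a b
      rw [← h1]

lemma Tn_finite {k : ℕ} {J : Type} [Finite J] (n : ℕ) : (Tn k J n).Finite := by
  have h : Tn k J n = ⋃ l ∈ Finset.range (n + 1), {t | IsLv l t} := by
    ext t
    simp only [Tn, Set.mem_setOf_eq, Finset.mem_range, Set.mem_iUnion, exists_prop]
    constructor
    · rintro ⟨l, h1, h2⟩
      exact ⟨l, by omega, h2⟩
    · rintro ⟨l, h1, h2⟩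
      exact ⟨l, by omega, h2⟩
  rw [h]
  exact Set.Finite.biUnion (Finset.finite_toSet _) fun l _ => IsLv_finite l

/-- the finite dimensional space with basis the trees of level at most `n` -/
abbrev Ft (F : Type) [Field F] (k : ℕ) (J : Type) (n : ℕ) := (Tn k J n) →₀ F

variable {F : Type} [Field F] {k : ℕ} {J : Type}

/-- projection -/
def dn (n : ℕ) : Fr F k J →ₗ[F] Ft F k J n := Finsupp.lsubtypeDomain (Tn k J n)

/-- inclusion -/
def up (n : ℕ) : Ft F k J n →ₗ[F] Fr F k J := Finsupp.lmapDomain F F Subtype.val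

lemma dn_apply (n : ℕ) (x : Fr F k J) (t : Tn k J n) : dn n x t = x t.1 := rfl

open Classical in
lemma up_dn (n : ℕ) (x : Fr F k J) (t : Tr (Lef k J) (Lab k J)) :
    up n (dn n x) t = if t ∈ Tn k J n then x t else 0 := by
  by_cases h : t ∈ Tn k J n
  · rw [if_pos h]
    have h1 : up n (dn n x) ((⟨t, h⟩ : Tn k J n) : Tr (Lef k J) (Lab k J)) = dn n x ⟨t, h⟩ :=
      Finsupp.mapDomain_apply Subtype.val_injective _ _
    exact h1
  · rw [if_neg h]
    refine Finsupp.mapDomain_notin_range _ _ ?_
    rintro ⟨s, rfl⟩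
    exact h s.2

lemma dn_op (n : ℕ) (c : Lab k J) (x y : Fr F k J) :
    dn n (op c (up n (dn n x)) (up n (dn n y))) = dn n (op c x y) := by
  classical
  refine Finsupp.ext fun t => ?_
  obtain ⟨t, l, hl, ht⟩ := t
  rw [dn_apply, dn_apply]
  cases t with
  | leaf s => rw [op_apply_leaf, op_apply_leaf]
  | node c' a b =>
    rw [op_apply_node, op_apply_node]
    cases l with
    | zero => exact absurd ht (fun h => h)
    | succ l =>
      obtain ⟨_, h2, h3⟩ := ht
      have ha : a ∈ Tn k J n := ⟨l, by omega, h2⟩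
      have hb : b ∈ Tn k J n := ⟨l, by omega, h3⟩
      rw [up_dn, up_dn, if_pos ha, if_pos hb]

variable [Fintype J]

/-- the truncated interpretation -/
def trI (F : Type) [Field F] (k H : ℕ) (J : Type) [Fintype J] :
    Interp F (W k) (Fin H × W k) J (Ft F k J H) where
  src := fun v j => dn H (lf (v, j))
  gate := fun g i j j' =>
    ((op ((g.1 : ℕ), g.2, i, j, j')).compl₁₂ (up H) (up H)).compr₂ (dn H)

/-- its evaluation -/
def trV (F : Type) [Field F] (k H : ℕ) (J : Type) [Fintype J] :
    W k ⊕ (Fin H × W k) → J → Ft F k J H := fun nd i => dn H (frV F k H J nd i)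

lemma trI_gate (H : ℕ) (g : Fin H × W k) (i j j' : J) (x y : Fr F k J) :
    (trI F k H J).gate g i j j' (dn H x) (dn H y)
      = dn H ((frI F k H J).gate g i j j' x y) :=
  dn_op H _ x y

lemma trV_val (H : ℕ) : IsValuation (fft k H) (trI F k H J) (trV F k H J) := by
  obtain ⟨h1, h2⟩ := frV_val (F := F) (k := k) (J := J) H
  constructor
  · intro s
    funext j
    unfold trV
    rw [h1]
    rfl
  · intro g
    funext i
    unfold trV
    rw [h2]
    unfold Interp.map
    rw [map_sum]
    refine Finset.sum_congr rfl fun j _ => ?_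
    rw [map_sum]
    refine Finset.sum_congr rfl fun j' _ => ?_
    rw [trI_gate]

variable {R : Type} [Fintype R]

lemma form_dn (H : ℕ) (f : Form F (W k) J R) (x : R → Fr F k J) :
    f.eval (trI F k H J) (fun r => dn H (x r)) = dn H (f.eval (frI F k H J) x) := by
  unfold Form.eval
  simp only [map_add, map_sum, map_smul]
  rfl

lemma step_dn (H : ℕ) (ρ : Round F (W k) (Fin H × W k) J R) (x : R → Fr F k J) :
    ρ.step (trI F k H J) (fun r => dn H (x r))
      = fun r => dn H (ρ.step (frI F k H J) x r) := by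
  funext r
  unfold Round.step
  rw [map_add, form_dn, map_list_sum, List.map_map]
  congr 1
  congr 1
  refine List.map_congr_left fun c _ => ?_
  rw [form_dn, form_dn, trI_gate, Function.comp_apply, map_smul]

lemma run_dn (H : ℕ) (P : List (Round F (W k) (Fin H × W k) J R)) (x : R → Fr F k J) :
    run (trI F k H J) P (fun r => dn H (x r)) = fun r => dn H (run (frI F k H J) P x r) := by
  induction P generalizing x with
  | nil => rfl
  | cons ρ P ih =>
    change run (trI F k H J) P (ρ.step (trI F k H J) fun r => dn H (x r)) = _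
    rw [step_dn, ih]
    rfl

/-- level `H` is seen by the truncation -/
lemma pr_of_dn (H : ℕ) (x y : Fr F k J) (h : dn H x = dn H y) : pr H x = pr H y := by
  classical
  refine Finsupp.ext fun t => ?_
  rw [pr, fil_apply, fil_apply]
  by_cases ht : IsLv H t
  · rw [if_pos ht, if_pos ht]
    have := DFunLike.congr_fun h (⟨t, H, le_rfl, ht⟩ : Tn k J H)
    exact this
  · rw [if_neg ht, if_neg ht]

/-- **lower bound**: one finite dimensional interpretation for all programs -/
theorem lower (F : Type) [Field F] (b k H : ℕ) (hb : 1 ≤ b) (hk : 1 ≤ k) :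
    ∃ (A : Type) (_ : AddCommGroup A) (_ : Module F A) (_ : Module.Finite F A)
      (I : Interp F (W k) (Fin (H + 1) × W k) (Fin b) A)
      (val : W k ⊕ (Fin (H + 1) × W k) → Fin b → A), IsValuation (fft k (H + 1)) I val ∧
      ∀ (R : Type) [Fintype R], 32 * (k * Fintype.card R) ≤ b * 2 ^ k →
        ∀ (P : List (Round F (W k) (Fin (H + 1) × W k) (Fin b) R)) (r : R) (v : W k) (i : Fin b),
          run I P (fun _ => 0) r = val (Sum.inr (Fin.last H, v)) i →
          2 ^ (H / (k + 1)) ≤ P.length := by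
  have : Nonempty (Fin b) := ⟨⟨0, hb⟩⟩
  have : Finite (Tn k (Fin b) (H + 1)) := (Tn_finite (k := k) (J := Fin b) (H + 1)).to_subtype
  refine ⟨Ft F k (Fin b) (H + 1), inferInstance, inferInstance, inferInstance,
    trI F k (H + 1) (Fin b), trV F k (H + 1) (Fin b), trV_val (H + 1), ?_⟩
  intro R _ hR P r v i hout
  refine lowerFree F k H (Fin b) hk R (by rwa [Fintype.card_fin]) P r v i ?_
  have h0 : (fun _ : R => (0 : Ft F k (Fin b) (H + 1)))
      = fun r : R => dn (H + 1) ((fun _ : R => (0 : Fr F k (Fin b))) r) := by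
    funext r
    rw [map_zero]
  rw [h0, run_dn] at hout
  have h1 : dn (H + 1) (run (frI F k (H + 1) (Fin b)) P (fun _ => 0) r)
      = dn (H + 1) (Y (H + 1) v i) := hout
  rw [pr_of_dn (H + 1) _ _ h1, pr_Y]

end

end Pool.Agent.Lib.MP_9dcf40_lc.Reg
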