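import Mathlib

/-!
# MP_9dcf40_lc, project Reg: the free algebra of binary trees

`Tr Lf Lb`: binary trees with leaves in `Lf` and inner nodes labelled by `Lb`.  `Alg F Lf Lb` is the
vector space with basis `Tr Lf Lb`, `op c` the bilinear operation which adds a new root `c`.
-/

set_option autoImplicit false

namespace Pool.Agent.Lib.MP_9dcf40_lc.Reg

noncomputable section

/-- binary trees -/
inductive Tr (Lf Lb : Type) : Type
  | leaf : Lf → Tr Lf Lb
  | node : Lb → Tr Lf Lb → Tr Lf Lb → Tr Lf Lb

/-- the free algebra -/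
abbrev Alg (F Lf Lb : Type) [Field F] := Tr Lf Lb →₀ F

variable {F Lf Lb : Type} [Field F]

/-- the operation with label `c` -/
def op (c : Lb) : Alg F Lf Lb →ₗ[F] Alg F Lf Lb →ₗ[F] Alg F Lf Lb :=
  Finsupp.linearCombination F fun a => Finsupp.lmapDomain F F (Tr.node c a)

lemma op_single (c : Lb) (a b : Tr Lf Lb) (α β : F) :
    op c (Finsupp.single a α) (Finsupp.single b β) = Finsupp.single (Tr.node c a b) (α * β) := by
  simp [op, Finsupp.linearCombination_single, Finsupp.mapDomain_single]

lemma node_inj (c : Lb) (a : Tr Lf Lb) : Function.Injective (Tr.node c a) := by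
  intro b b' h
  injection h

/-- two bilinear maps which agree on basis elements are equal -/
lemma bil_ext {B : Type} [AddCommGroup B] [Module F B] (f g : Alg F Lf Lb →ₗ[F] Alg F Lf Lb →ₗ[F] B)
    (h : ∀ a b, f (Finsupp.single a 1) (Finsupp.single b 1)
      = g (Finsupp.single a 1) (Finsupp.single b 1)) : f = g := by
  refine Finsupp.lhom_ext' fun a => LinearMap.ext_ring ?_
  refine Finsupp.lhom_ext' fun b => LinearMap.ext_ring ?_
  simpa using h a b

open Classical in
lemma op_apply_node (c c' : Lb) (a b : Tr Lf Lb) (x y : Alg F Lf Lb) :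
    op c x y (Tr.node c' a b) = if c = c' then x a * y b else 0 := by
  let f : Alg F Lf Lb →ₗ[F] Alg F Lf Lb →ₗ[F] F :=
    (op c).compr₂ (Finsupp.lapply (Tr.node c' a b))
  let g : Alg F Lf Lb →ₗ[F] Alg F Lf Lb →ₗ[F] F :=
    if c = c' then (LinearMap.mul F F).compl₁₂ (Finsupp.lapply a) (Finsupp.lapply b) else 0
  have h : f = g := by
    refine bil_ext f g fun a' b' => ?_
    by_cases hc : c = c'
    · subst hc
      simp only [f, g, if_true, LinearMap.compr₂_apply, op_single, Finsupp.lapply_apply,
        LinearMap.compl₁₂_apply, LinearMap.mul_apply']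
      by_cases ha : a' = a
      · by_cases hb : b' = b
        · subst ha; subst hb; simp
        · subst ha
          rw [Finsupp.single_apply, if_neg (fun h => hb (by injection h))]
          simp [Finsupp.single_apply, hb]
      · rw [Finsupp.single_apply, if_neg (fun h => ha (by injection h))]
        simp [Finsupp.single_apply, ha]
    · simp only [f, g, if_neg hc, LinearMap.compr₂_apply, op_single, Finsupp.lapply_apply,
        LinearMap.zero_apply]
      rw [Finsupp.single_apply, if_neg (fun h => hc (by injection h))]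
  have h2 : f x y = g x y := by rw [h]
  by_cases hc : c = c'
  · subst hc
    simpa [f, g] using h2
  · simpa [f, g, hc] using h2

lemma op_apply_leaf (c : Lb) (s : Lf) (x y : Alg F Lf Lb) : op c x y (Tr.leaf s) = 0 := by
  let f : Alg F Lf Lb →ₗ[F] Alg F Lf Lb →ₗ[F] F := (op c).compr₂ (Finsupp.lapply (Tr.leaf s))
  have h : f = 0 := by
    refine bil_ext f 0 fun a' b' => ?_
    simp [f, op_single, Finsupp.single_apply]
  have h2 : f x y = 0 := by rw [h]; rfl
  simpa [f] using h2

open Classical in
/-- apply the functional `φ` to the first subtree of the trees with root `c`, kill the others -/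
def Ph (c : Lb) (φ : Alg F Lf Lb →ₗ[F] F) : Alg F Lf Lb →ₗ[F] Alg F Lf Lb :=
  Finsupp.linearCombination F fun t => match t with
    | Tr.leaf _ => 0
    | Tr.node c' a b => if c' = c then φ (Finsupp.single a 1) • Finsupp.single b 1 else 0

open Classical in
lemma Ph_op (c c' : Lb) (φ : Alg F Lf Lb →ₗ[F] F) (x y : Alg F Lf Lb) :
    Ph c φ (op c' x y) = if c' = c then φ x • y else 0 := by
  let f : Alg F Lf Lb →ₗ[F] Alg F Lf Lb →ₗ[F] Alg F Lf Lb := (op c').compr₂ (Ph c φ)
  let g : Alg F Lf Lb →ₗ[F] Alg F Lf Lb →ₗ[F] Alg F Lf Lb :=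
    if c' = c then (LinearMap.lsmul F (Alg F Lf Lb)).comp φ else 0
  have h : f = g := by
    refine bil_ext f g fun a b => ?_
    by_cases hc : c' = c
    · simp only [f, g, if_pos hc, LinearMap.compr₂_apply, op_single, Ph,
        Finsupp.linearCombination_single]
      simp
    · simp only [f, g, if_neg hc, LinearMap.compr₂_apply, op_single, Ph,
        Finsupp.linearCombination_single]
      simp
  have h2 : f x y = g x y := by rw [h]
  by_cases hc : c' = c
  · subst hc
    simpa [f, g] using h2
  · simpa [f, g, hc] using h2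

open Classical in
/-- projection on the trees with the property `p` -/
def fil (p : Tr Lf Lb → Prop) : Alg F Lf Lb →ₗ[F] Alg F Lf Lb where
  toFun := fun x => Finsupp.filter p x
  map_add' := fun _ _ => Finsupp.filter_add
  map_smul' := fun _ _ => Finsupp.filter_smul

open Classical in
lemma fil_apply (p : Tr Lf Lb → Prop) (x : Alg F Lf Lb) (t : Tr Lf Lb) :
    fil p x t = if p t then x t else 0 := by
  simp [fil, Finsupp.filter_apply]

end

end Pool.Agent.Lib.MP_9dcf40_lc.Reg
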